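import Pool.Agent.J4H30.AW.LS1

/-!
Project AW, part 4: the weight of the windows satisfies the hypotheses of the engine.
-/

set_option autoImplicit false

open Finset Filter

namespace Pool.Agent.J4H30.AW

open Pool.Agent.H410R2.AC Pool.Agent.H410R2.EN

/-- the uniform measure on the windows `[e, e + J)`, `e ∈ E` -/
noncomputable def wE (E : Finset ℕ) (J m : ℕ) : ℝ :=
  (1 / (J : ℝ)) * ∑ e ∈ E, ∑ j ∈ range J, (if e + j = m then 1 else 0)

/-- the error terms -/
noncomputable def errE (E : Finset ℕ) (J : ℕ) (T : Finset ℕ) : ℝ :=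
  (1 / ((∏ p ∈ T, p : ℕ) : ℝ)) * ∑ T' ∈ T.powerset.erase ∅,
    Real.sqrt (TT E (∏ p ∈ T', p) * (((∏ p ∈ T', p : ℕ) : ℝ) / J))

lemma wE_nonneg (E : Finset ℕ) (J m : ℕ) : 0 ≤ wE E J m := by
  unfold wE
  refine mul_nonneg (by positivity) (Finset.sum_nonneg fun e _ => Finset.sum_nonneg fun j _ => ?_)
  split_ifs <;> norm_num

lemma wE_ne_zero (E : Finset ℕ) (J m : ℕ) (h : wE E J m ≠ 0) : ∃ e ∈ E, ∃ j < J, e + j = m := by
  by_contra hc
  push Not at hc
  apply h
  unfold wE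
  rw [Finset.sum_eq_zero, mul_zero]
  intro e he
  refine Finset.sum_eq_zero fun j hj => ?_
  rw [if_neg (hc e he j (mem_range.mp hj))]

lemma prod_pos_of {T : Finset ℕ} (hT : ∀ p ∈ T, p.Prime) : 0 < ∏ p ∈ T, p :=
  Finset.prod_pos fun p hp => (hT p hp).pos

lemma squarefree_prod {T : Finset ℕ} (hT : ∀ p ∈ T, p.Prime) : Squarefree (∏ p ∈ T, p) := by
  refine Finset.squarefree_prod_of_pairwise_isCoprime ?_ ?_
  · intro i hi j hj hij
    exact Nat.coprime_iff_isRelPrime.mp ((Nat.coprime_primes (hT i hi) (hT j hj)).mpr hij)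
  · intro i hi
    exact (hT i hi).squarefree

lemma sum_divisors_le {T : Finset ℕ} (hT : ∀ p ∈ T, p.Prime) (G : ℕ → ℝ) (hG : ∀ d, 0 ≤ G d) :
    ∑ d ∈ (∏ p ∈ T, p).divisors.erase 1, G d ≤ ∑ T' ∈ T.powerset.erase ∅, G (∏ p ∈ T', p) := by
  classical
  set q := ∏ p ∈ T, p with hq
  have hq0 : 0 < q := prod_pos_of hT
  have hsq : Squarefree q := squarefree_prod hT
  have hpf : q.primeFactors = T := Nat.primeFactors_prod hT
  have hval : ∀ d ∈ q.divisors.erase 1, ∏ p ∈ d.primeFactors, p = d := by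
    intro d hd
    rw [mem_erase, Nat.mem_divisors] at hd
    exact Nat.prod_primeFactors_of_squarefree (hsq.squarefree_of_dvd hd.2.1)
  have hinj : Set.InjOn Nat.primeFactors (q.divisors.erase 1 : Finset ℕ) := by
    intro d hd d' hd' h
    rw [← hval d hd, ← hval d' hd', h]
  have h1 : ∑ d ∈ q.divisors.erase 1, G d =
      ∑ T' ∈ (q.divisors.erase 1).image Nat.primeFactors, G (∏ p ∈ T', p) := by
    rw [Finset.sum_image hinj]
    refine Finset.sum_congr rfl fun d hd => ?_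
    rw [hval d hd]
  rw [h1]
  refine Finset.sum_le_sum_of_subset_of_nonneg ?_ (fun _ _ _ => hG _)
  intro T' hT'
  rw [Finset.mem_image] at hT'
  obtain ⟨d, hd, rfl⟩ := hT'
  have hd2 := hd
  rw [mem_erase, Nat.mem_divisors] at hd
  rw [mem_erase, mem_powerset]
  constructor
  · intro he
    have := hval d hd2
    rw [he, Finset.prod_empty] at this
    exact hd.1 this.symm
  · rw [← hpf]
    exact Nat.primeFactors_mono hd.2.1 hq0.ne'

/-- Chinese remainder theorem -/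
lemma crt_T {T : Finset ℕ} (hT : ∀ p ∈ T, p.Prime) (c : ℕ → ℕ) (hc : ∀ p ∈ T, c p < p) :
    ∃ r : ℕ, ∀ m : ℕ, (∀ p ∈ T, m % p = c p) ↔ ((∏ p ∈ T, p : ℕ) : ℤ) ∣ (m : ℤ) - r := by
  classical
  have hcop : (T : Set ℕ).Pairwise (Function.onFun Nat.Coprime (fun p => p)) := by
    intro i hi j hj hij
    exact (Nat.coprime_primes (hT i hi) (hT j hj)).mpr hij
  set r := (Nat.chineseRemainderOfFinset c (fun p => p) T (fun p hp => (hT p hp).ne_zero)
    hcop : ℕ) with hr
  have hr2 : ∀ p ∈ T, r ≡ c p [MOD p] :=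
    (Nat.chineseRemainderOfFinset c (fun p => p) T (fun p hp => (hT p hp).ne_zero) hcop).2
  refine ⟨r, fun m => ?_⟩
  have h1 : ∀ p ∈ T, (m % p = c p ↔ (p : ℤ) ∣ (m : ℤ) - r) := by
    intro p hp
    have h2 : m % p = c p ↔ m ≡ r [MOD p] := by
      have h3 := hr2 p hp
      unfold Nat.ModEq at h3 ⊢
      rw [Nat.mod_eq_of_lt (hc p hp)] at h3
      rw [h3]
    rw [h2, ← Int.natCast_modEq_iff]
    exact ⟨fun h => Int.modEq_iff_dvd.mp h.symm, fun h => (Int.modEq_iff_dvd.mpr h).symm⟩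
  constructor
  · intro h
    have : ((∏ p ∈ T, p : ℕ) : ℤ) = ∏ p ∈ T, (p : ℤ) := by push_cast; rfl
    rw [this]
    apply Finset.prod_dvd_of_coprime
    · intro i hi j hj hij
      exact Nat.isCoprime_iff_coprime.mpr ((Nat.coprime_primes (hT i hi) (hT j hj)).mpr hij)
    · intro p hp
      exact (h1 p hp).mp (h p hp)
  · intro h p hp
    rw [h1 p hp]
    refine dvd_trans ?_ h
    exact_mod_cast Finset.dvd_prod_of_mem _ hp

lemma equid_wE (E P : Finset ℕ) (N J M D0 : ℕ) (hE : E ⊆ Icc 1 N) (hJ : 0 < J) (hM : N + J ≤ M)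
    (hP : ∀ p ∈ P, p.Prime) :
    Equid (fun p _ => 1 / (p : ℝ)) (wE E J) M E.card P D0 (errE E J) := by
  classical
  intro T hT _ c hc
  have hTp : ∀ p ∈ T, p.Prime := fun p hp => hP p (hT hp)
  obtain ⟨r, hr⟩ := crt_T hTp c hc
  set q := ∏ p ∈ T, p with hq
  have hq0 : 0 < q := prod_pos_of hTp
  have h1 : ∑ m ∈ (range M).filter (fun m => ∀ p ∈ T, m % p = c p), wE E J m =
      (1 / (J : ℝ)) * ∑ e ∈ E, ∑ j ∈ range J,
        (if (q : ℤ) ∣ ((e + j : ℕ) : ℤ) - r then (1 : ℝ) else 0) := by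
    unfold wE
    rw [← Finset.mul_sum, Finset.sum_comm]
    congr 1
    refine Finset.sum_congr rfl fun e he => ?_
    rw [Finset.sum_comm]
    refine Finset.sum_congr rfl fun j hj => ?_
    rw [Finset.sum_ite_eq]
    have h2 : e + j ∈ (range M).filter (fun m => ∀ p ∈ T, m % p = c p) ↔
        (q : ℤ) ∣ ((e + j : ℕ) : ℤ) - r := by
      rw [mem_filter, mem_range, hr]
      have h3 := (mem_Icc.mp (hE he)).2
      have h4 := mem_range.mp hj
      constructor
      · exact fun h => h.2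
      · exact fun h => ⟨by omega, h⟩
    by_cases h : (q : ℤ) ∣ ((e + j : ℕ) : ℤ) - r
    · rw [if_pos h, if_pos (h2.mpr h)]
    · rw [if_neg h, if_neg (fun h5 => h (h2.mp h5))]
  have h2 : (E.card : ℝ) * ∏ p ∈ T, 1 / (p : ℝ) = E.card / q := by
    rw [Finset.prod_div_distrib, Finset.prod_const_one, hq]
    push_cast
    rw [mul_one_div]
  rw [h1]
  have h3 := disc E J q hJ hq0 r
  have h4 : (fun p (_ : ℕ) => 1 / (p : ℝ)) = (fun p (_ : ℕ) => 1 / (p : ℝ)) := rfl
  refine le_trans (le_of_eq ?_) (h3.trans ?_)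
  · rw [← h2]
  · unfold errE
    rw [← hq]
    refine mul_le_mul_of_nonneg_left ?_ (by positivity)
    exact sum_divisors_le hTp (fun d => Real.sqrt (TT E d * ((d : ℝ) / J)))
      (fun d => Real.sqrt_nonneg _)

lemma prod_one_add_le (P : Finset ℕ) (hP : ∀ p ∈ P, p.Prime) (k : ℕ) :
    ∏ p ∈ P, (1 + (k : ℝ) / p) ≤ Pi1 P ^ k := by
  unfold Pi1
  rw [← Finset.prod_pow]
  refine Finset.prod_le_prod (fun p _ => by positivity) fun p hp => ?_
  have h2 := prime_two_le (hP p hp)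
  have h1 : (1 : ℝ) / p ≤ 1 / ((p : ℝ) - 1) := by
    apply one_div_le_one_div_of_le <;> linarith
  calc 1 + (k : ℝ) / p = 1 + k * (1 / p) := by ring
    _ ≤ (1 + 1 / (p : ℝ)) ^ k := one_add_mul_le_pow (by
        have : (0 : ℝ) ≤ 1 / p := by positivity
        linarith) k
    _ ≤ _ := by gcongr

/-- the total error -/
lemma ET_wE (E P : Finset ℕ) (N J D0 K : ℕ) (hE : E ⊆ Icc 1 N) (hJ : 0 < J)
    (hP : ∀ p ∈ P, p.Prime) :
    ET K P D0 (errE E J) ≤ Pi1 P ^ K * (Real.sqrt (Pi1 P ^ (K ^ 2)) *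
      Real.sqrt (6 * (N + (D0 : ℝ) ^ 2) * E.card / J)) := by
  classical
  have hJR : (0 : ℝ) < J := by exact_mod_cast hJ
  set a : Finset ℕ → ℝ := fun T => (K : ℝ) ^ T.card / ((∏ p ∈ T, p : ℕ) : ℝ) with ha
  set f : Finset ℕ → ℝ := fun T => Real.sqrt (TT E (∏ p ∈ T, p) * (((∏ p ∈ T, p : ℕ) : ℝ) / J))
    with hf
  have ha0 : ∀ T, 0 ≤ a T := fun T => by simp only [ha]; positivity
  have hf0 : ∀ T, 0 ≤ f T := fun T => Real.sqrt_nonneg _
  set Q : Finset (Finset ℕ) := P.powerset.filter (fun T : Finset ℕ => ∏ p ∈ T, p ≤ D0) with hQ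
  -- swap
  have h1 : ET K P D0 (errE E J) ≤ ∑ T' ∈ Q, ∑ T'' ∈ P.powerset, (a T' * f T') * a T'' := by
    have h2 : ET K P D0 (errE E J) = ∑ x ∈ Q.sigma (fun T => T.powerset.erase ∅), a x.1 * f x.2 := by
      rw [Finset.sum_sigma]
      unfold ET errE
      refine Finset.sum_congr rfl fun T _ => ?_
      rw [Finset.mul_sum, Finset.mul_sum]
      refine Finset.sum_congr rfl fun T' _ => ?_
      simp only [ha, hf]
      ring
    rw [h2, ← Finset.sum_product']
    set φ : (Σ _ : Finset ℕ, Finset ℕ) → Finset ℕ × Finset ℕ := fun x => (x.2, x.1 \ x.2) with hφ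
    have hinj : Set.InjOn φ (Q.sigma (fun T => T.powerset.erase ∅) : Finset _) := by
      rintro ⟨T, T'⟩ hx ⟨U, U'⟩ hy h
      rw [mem_coe, mem_sigma, mem_erase, mem_powerset] at hx hy
      simp only [hφ, Prod.mk.injEq] at h hx hy
      obtain ⟨h3, h4⟩ := h
      subst h3
      have : T = U := by
        rw [← Finset.sdiff_union_of_subset hx.2.2, h4, Finset.sdiff_union_of_subset hy.2.2]
      rw [this]
    have h3 : ∀ x ∈ Q.sigma (fun T => T.powerset.erase ∅), a x.1 * f x.2 =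
        (fun y : Finset ℕ × Finset ℕ => (a y.1 * f y.1) * a y.2) (φ x) := by
      rintro ⟨T, T'⟩ hx
      rw [mem_sigma, mem_erase, mem_powerset] at hx
      simp only at hx
      simp only [hφ]
      have h4 : a T = a T' * a (T \ T') := by
        simp only [ha]
        have h5 : (∏ p ∈ T, p) = (∏ p ∈ T', p) * ∏ p ∈ T \ T', p := by
          rw [mul_comm, Finset.prod_sdiff hx.2.2]
        have h6 : T.card = T'.card + (T \ T').card := by
          rw [add_comm, Finset.card_sdiff_add_card_eq_card hx.2.2]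
        rw [h5, h6, pow_add]
        push_cast
        rw [mul_div_mul_comm]
      rw [h4]
      ring
    rw [Finset.sum_congr rfl h3, ← Finset.sum_image (g := φ)
      (f := fun y : Finset ℕ × Finset ℕ => (a y.1 * f y.1) * a y.2) hinj]
    refine Finset.sum_le_sum_of_subset_of_nonneg ?_ (fun y _ _ =>
      mul_nonneg (mul_nonneg (ha0 _) (hf0 _)) (ha0 _))
    intro y hy
    rw [Finset.mem_image] at hy
    obtain ⟨⟨T, T'⟩, hx, rfl⟩ := hy
    rw [mem_sigma, mem_erase, mem_powerset, hQ, mem_filter, mem_powerset] at hx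
    simp only at hx
    simp only [hφ, mem_product, hQ, mem_filter, mem_powerset]
    refine ⟨⟨hx.2.2.trans hx.1.1, ?_⟩, Finset.sdiff_subset.trans hx.1.1⟩
    refine le_trans ?_ hx.1.2
    refine Nat.le_of_dvd (prod_pos_of fun p hp => hP p (hx.1.1 hp)) ?_
    exact Finset.prod_dvd_prod_of_subset _ _ _ hx.2.2
  have hsumA : ∀ k : ℕ, ∑ T ∈ P.powerset, (k : ℝ) ^ T.card / ((∏ p ∈ T, p : ℕ) : ℝ) ≤
      Pi1 P ^ k := by
    intro k
    refine le_trans (le_of_eq ?_) (prod_one_add_le P hP k)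
    rw [Finset.prod_one_add]
    refine Finset.sum_congr rfl fun T _ => ?_
    rw [Finset.prod_div_distrib, Finset.prod_const]
    push_cast
    rfl
  have h2 : ∑ T' ∈ Q, ∑ T'' ∈ P.powerset, (a T' * f T') * a T'' =
      (∑ T'' ∈ P.powerset, a T'') * ∑ T' ∈ Q, a T' * f T' := by
    rw [mul_comm, Finset.sum_mul_sum]
  have h3 : ∑ T' ∈ Q, a T' * f T' ≤ Real.sqrt (Pi1 P ^ (K ^ 2)) *
      Real.sqrt (6 * (N + (D0 : ℝ) ^ 2) * E.card / J) := by
    have h4 : ∀ T' ∈ Q, a T' * f T' =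
        Real.sqrt ((((K ^ 2 : ℕ) : ℝ)) ^ T'.card / ((∏ p ∈ T', p : ℕ) : ℝ)) *
          Real.sqrt (TT E (∏ p ∈ T', p) / J) := by
      intro T' hT'
      rw [hQ, mem_filter, mem_powerset] at hT'
      have hpos : (0 : ℝ) < ((∏ p ∈ T', p : ℕ) : ℝ) := by
        exact_mod_cast prod_pos_of fun p hp => hP p (hT'.1 hp)
      simp only [ha, hf]
      rw [← Real.sqrt_mul (by positivity)]
      have h5 : (K : ℝ) ^ T'.card / ((∏ p ∈ T', p : ℕ) : ℝ) =
          Real.sqrt (((K : ℝ) ^ T'.card / ((∏ p ∈ T', p : ℕ) : ℝ)) ^ 2) := by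
        rw [Real.sqrt_sq (by positivity)]
      rw [h5, ← Real.sqrt_mul (by positivity)]
      congr 1
      push_cast
      field_simp
      ring
    rw [Finset.sum_congr rfl h4]
    have h6 := Finset.sum_mul_sq_le_sq_mul_sq Q
      (fun T' => Real.sqrt ((((K ^ 2 : ℕ) : ℝ)) ^ T'.card / ((∏ p ∈ T', p : ℕ) : ℝ)))
      (fun T' => Real.sqrt (TT E (∏ p ∈ T', p) / J))
    have h7 : ∑ T' ∈ Q, Real.sqrt ((((K ^ 2 : ℕ) : ℝ)) ^ T'.card /
        ((∏ p ∈ T', p : ℕ) : ℝ)) ^ 2 ≤ Pi1 P ^ (K ^ 2) := by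
      refine le_trans ?_ (hsumA (K ^ 2))
      refine le_trans (le_of_eq ?_) (Finset.sum_le_sum_of_subset_of_nonneg
        (Finset.filter_subset _ _ : Q ⊆ P.powerset) (fun _ _ _ => by positivity))
      refine Finset.sum_congr rfl fun T' _ => ?_
      rw [Real.sq_sqrt (by positivity)]
    have h8 : ∑ T' ∈ Q, Real.sqrt (TT E (∏ p ∈ T', p) / J) ^ 2 ≤
        6 * (N + (D0 : ℝ) ^ 2) * E.card / J := by
      have h9 : ∀ T' ∈ Q, Real.sqrt (TT E (∏ p ∈ T', p) / J) ^ 2 = TT E (∏ p ∈ T', p) / J := by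
        intro T' _
        rw [Real.sq_sqrt (div_nonneg (TT_nonneg _ _) hJR.le)]
      rw [Finset.sum_congr rfl h9, ← Finset.sum_div]
      refine div_le_div_of_nonneg_right ?_ hJR.le
      refine le_trans ?_ (TT_sum E N D0 hE)
      have hinj : Set.InjOn (fun T' : Finset ℕ => ∏ p ∈ T', p) (Q : Set (Finset ℕ)) := by
        intro T hT T' hT' h
        rw [mem_coe, hQ, mem_filter, mem_powerset] at hT hT'
        exact prodset_inj (fun p hp => hP p (hT.1 hp)) (fun p hp => hP p (hT'.1 hp)) h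
      rw [← Finset.sum_image (g := fun T' : Finset ℕ => ∏ p ∈ T', p) (f := TT E) hinj]
      refine Finset.sum_le_sum_of_subset_of_nonneg ?_ (fun _ _ _ => TT_nonneg _ _)
      intro d hd
      rw [Finset.mem_image] at hd
      obtain ⟨T, hT, rfl⟩ := hd
      rw [hQ, mem_filter, mem_powerset] at hT
      rw [mem_Icc]
      exact ⟨prod_pos_of fun p hp => hP p (hT.1 hp), hT.2⟩
    rw [← Real.sqrt_mul (pow_nonneg (by
      unfold Pi1
      refine Finset.prod_nonneg fun p hp => ?_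
      have h2 := prime_two_le (hP p hp)
      have : (0 : ℝ) < (p : ℝ) - 1 := by linarith
      positivity) _)]
    refine Real.le_sqrt_of_sq_le (h6.trans ?_)
    refine mul_le_mul h7 h8 (Finset.sum_nonneg fun _ _ => sq_nonneg _) ?_
    exact le_trans (Finset.sum_nonneg fun _ _ => sq_nonneg _) h7
  rw [h2] at h1
  refine h1.trans ?_
  refine mul_le_mul (hsumA K) h3 (Finset.sum_nonneg fun _ _ => mul_nonneg (ha0 _) (hf0 _)) ?_
  exact le_trans (Finset.sum_nonneg fun _ _ => ha0 _) (hsumA K)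

end Pool.Agent.J4H30.AW
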