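import Pool.Agent.J4H30.AW.Basic
import Pool.Agent.J4H30.AW.LS2
import Pool.Agent.H143R2.ACFinal

/-!
Project AW, part 5: auxiliary lemmas on collisions and fibres.
-/

set_option autoImplicit false

open Finset Filter

namespace Pool.Agent.J4H30.AW

open Pool.Agent.H410R2.AC Pool.Agent.H410R2.EN Pool.Agent.H143R2.ACF

lemma tendsto_loglog : Tendsto (fun N : ℕ => Real.log (Real.log N)) atTop atTop :=
  Real.tendsto_log_atTop.comp tendsto_log_nat

lemma ev_delta (k A : ℕ) (δ : ℝ) (hδ : 0 < δ) :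
    ∀ᶠ z : ℕ in atTop, 2 / (z : ℝ) + (2 * (k : ℝ) + 1) ^ 2 * (A / Real.log z) ≤ δ := by
  have h1 : Tendsto (fun z : ℕ => 2 / (z : ℝ)) atTop (nhds 0) :=
    tendsto_natCast_atTop_atTop.const_div_atTop 2
  have h2 : Tendsto (fun z : ℕ => (A : ℝ) / Real.log z) atTop (nhds 0) :=
    tendsto_log_nat.const_div_atTop _
  have h3 := h1.add (h2.const_mul ((2 * (k : ℝ) + 1) ^ 2))
  simp only [mul_zero, add_zero] at h3
  exact h3.eventually_le_const hδ

/-- collisions between positions below `L` -/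
lemma dl_le {z0 X L k Q b : ℕ} (U : Finset ℕ) (hU : ∀ a ∈ U, a ≤ L) (hk : U.card ≤ 2 * k + 1)
    (hz : 2 ≤ z0) (hQ : ∀ p ∈ PP z0 X, ¬ p ∣ Q)
    (h4 : ∑ p ∈ PP z0 X, (1 : ℝ) / ((p : ℝ) - 1) ^ 2 ≤ 2 / (z0 : ℝ))
    (h5 : ∀ d : ℕ, 1 ≤ d → d ≤ L →
      ∑ p ∈ (PP z0 X).filter (fun p : ℕ => p ∣ d), (1 : ℝ) / ((p : ℝ) - 1) ≤
        Real.log L / (z0 * Real.log z0)) :
    dl (fun p => p) (rho Q b) (PP z0 X) U ≤ 2 / (z0 : ℝ) + (2 * k + 1) ^ 2 *
      (Real.log L / (z0 * Real.log z0)) := by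
  refine le_trans (le_of_eq ?_) (del_le (C1 := 0) (b := b) U hU hk hz hQ h4 h5)
  unfold dl del
  congr 2
  ext p
  rw [mem_filter, mem_filter]
  constructor
  · rintro ⟨h1, h2 | ⟨a, -, h3⟩⟩
    · exact ⟨h1, h2⟩
    · exfalso
      have h4 : rho Q b p a = p := h3
      have := rho_lt (Q := Q) (b := b) (a := a) (PP_prime h1)
      omega
  · rintro ⟨h1, h2⟩
    exact ⟨h1, Or.inl h2⟩

lemma sqrt_bound (P a b R : ℝ) (k : ℕ) (hP : 0 ≤ P) (ha : 0 ≤ a) (hR : 0 ≤ R)
    (h : P ^ (2 * k) * (a * b) ≤ R ^ 2) : P ^ k * (Real.sqrt a * Real.sqrt b) ≤ R := by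
  have h1 : P ^ k = Real.sqrt (P ^ (2 * k)) := by
    rw [mul_comm, pow_mul, Real.sqrt_sq (by positivity)]
  rw [h1, ← Real.sqrt_mul ha, ← Real.sqrt_mul (by positivity)]
  rw [Real.sqrt_le_left hR]
  exact h

/-- the map from the bad integers to the beginnings of the windows -/
lemma card_fibre (s : Finset ℕ) (W c : ℕ) (hW : 0 < W) :
    s.card ≤ W * (s.image (fun n => (n + c) / W)).card := by
  classical
  refine Finset.card_le_mul_card_image s W fun a _ => ?_
  have h1 : (s.filter (fun n => (n + c) / W = a)).card ≤ (Ico (W * a) (W * a + W)).card := by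
    refine Finset.card_le_card_of_injOn (fun n => n + c) ?_ ?_
    · intro n hn
      have h2 : (n + c) / W = a := (mem_filter.mp hn).2
      simp only [coe_Ico, Set.mem_Ico]
      subst h2
      constructor
      · exact Nat.mul_div_le _ _
      · have := Nat.lt_mul_div_succ (n + c) hW
        rw [Nat.mul_add, mul_one] at this
        exact this
    · intro n _ n' _ h
      simpa using h
  rw [Nat.card_Ico] at h1
  omega

end Pool.Agent.J4H30.AW
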