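import Pool.Agent.J4H30.AW.Imp

/-! Project AW, part 1: elementary facts on the parameters of the engine. -/

set_option autoImplicit false

open Finset Filter

namespace Pool.Agent.J4H30.AW

open Pool.Agent.H410R2.AC Pool.Agent.H410R2.EN

/-- the double exponential scale below `x` -/
lemma exists_J (x : ℝ) (hx : 2 ≤ x) : ∃ J : ℕ, (2 : ℝ) ^ 2 ^ J ≤ x ∧ x < ((2 : ℝ) ^ 2 ^ J) ^ 2 := by
  classical
  have hex : ∃ J : ℕ, x < (2 : ℝ) ^ 2 ^ J := by
    obtain ⟨n, hn⟩ := pow_unbounded_of_one_lt x (by norm_num : (1 : ℝ) < 2)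
    refine ⟨n, hn.trans_le ?_⟩
    exact pow_le_pow_right₀ (by norm_num) (Nat.lt_two_pow_self).le
  have h1 := Nat.find_spec hex
  have h0 : Nat.find hex ≠ 0 := by
    intro h
    rw [h] at h1
    norm_num at h1
    linarith
  obtain ⟨J, hJ⟩ := Nat.exists_eq_succ_of_ne_zero h0
  refine ⟨J, ?_, ?_⟩
  · by_contra hc
    push Not at hc
    have := Nat.find_min hex (m := J) (by omega)
    exact this hc
  · rw [hJ] at h1
    rw [← pow_mul, ← pow_succ]
    exact h1

lemma prime_two_le {p : ℕ} (hp : p.Prime) : (2 : ℝ) ≤ p := by exact_mod_cast hp.two_le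

lemma V1_mul_Pi1 (P : Finset ℕ) (hP : ∀ p ∈ P, p.Prime) : V1 P * Pi1 P = 1 := by
  unfold V1 Pi1
  rw [← Finset.prod_mul_distrib]
  refine Finset.prod_eq_one fun p hp => ?_
  have h2 := prime_two_le (hP p hp)
  have : (p : ℝ) - 1 ≠ 0 := by linarith
  have : (p : ℝ) ≠ 0 := by linarith
  field_simp
  ring

lemma Pi1_eq_sum (P : Finset ℕ) : Pi1 P = ∑ R ∈ P.powerset, wt R := by
  unfold Pi1 wt
  rw [Finset.prod_one_add]

lemma sum_wt_le_Pi1 (P : Finset ℕ) (hP : ∀ p ∈ P, p.Prime) (F : Finset (Finset ℕ))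
    (hF : F ⊆ P.powerset) : ∑ R ∈ F, wt R ≤ Pi1 P := by
  rw [Pi1_eq_sum]
  refine Finset.sum_le_sum_of_subset_of_nonneg hF fun R hR _ => ?_
  exact wt_nonneg fun p hp => hP p (Finset.mem_powerset.mp hR hp)

lemma PP_union {a b c : ℕ} (h1 : a ≤ b) (h2 : b ≤ c) : PP a b ∪ PP b c = PP a c := by
  ext p
  rw [Finset.mem_union, mem_PP, mem_PP, mem_PP]
  constructor
  · rintro (⟨h, h3, h4⟩ | ⟨h, h3, h4⟩)
    · exact ⟨h, h3, by omega⟩
    · exact ⟨h, by omega, h4⟩
  · rintro ⟨h, h3, h4⟩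
    rcases le_or_gt p b with h5 | h5
    · exact Or.inl ⟨h, h3, h5⟩
    · exact Or.inr ⟨h, h5, h4⟩

/-- the masses of the families of small products -/
lemma mass2 {C1 : ℝ} (hC1 : 1 ≤ C1)
    (h2 : ∀ H z Y : ℕ, 2 ≤ H → Y ≤ z → Real.log Y / Real.log H ≤
      C1 * ∑ R ∈ (PP H z).powerset.filter (fun R : Finset ℕ => ∏ p ∈ R, p ≤ Y), wt R)
    (h3 : ∀ H z Y : ℕ, 2 ≤ H → H ≤ Y →
      ∑ R ∈ (PP H z).powerset.filter (fun R : Finset ℕ => ∏ p ∈ R, p ≤ Y), wt R ≤
        C1 * (Real.log Y / Real.log H)) (X H : ℕ) (hX : 2 ≤ X) (hH : 4 ≤ H) (v : ℝ) (hv : 0 < v)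
    (hH1 : (H : ℝ) ≤ (X : ℝ) ^ v) (hH2 : (X : ℝ) ^ v ≤ (H : ℝ) ^ 2)
    (t : ℝ) (ht : v ≤ t) (ht' : t ≤ 1) :
    t / (2 * C1 * v) ≤ ∑ R ∈ ((PP H X).powerset).filter
        (fun R : Finset ℕ => Real.log (∏ p ∈ R, (p : ℝ)) / Real.log X ≤ t), wt R ∧
      ∑ R ∈ ((PP H X).powerset).filter
        (fun R : Finset ℕ => Real.log (∏ p ∈ R, (p : ℝ)) / Real.log X ≤ t), wt R ≤
        2 * C1 * t / v := by
  have hX0 : (0 : ℝ) < X := by positivity
  have hX1 : (1 : ℝ) ≤ X := by exact_mod_cast (by omega : 1 ≤ X)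
  have hlX : 0 < Real.log (X : ℝ) := Real.log_pos (by exact_mod_cast (by omega : 1 < X))
  have hH4 : (4 : ℝ) ≤ (H : ℝ) := by exact_mod_cast hH
  have hlH : 0 < Real.log (H : ℝ) := Real.log_pos (by linarith)
  have ht0 : 0 < t := lt_of_lt_of_le hv ht
  have hXt : (H : ℝ) ≤ (X : ℝ) ^ t :=
    hH1.trans (Real.rpow_le_rpow_of_exponent_le hX1 ht)
  have hlH1 : Real.log H ≤ v * Real.log X := by
    rw [← Real.log_rpow hX0]
    exact Real.log_le_log (by linarith) hH1
  have hlH2 : v * Real.log X ≤ 2 * Real.log H := by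
    rw [← Real.log_rpow hX0]
    refine (Real.log_le_log (by positivity) hH2).trans ?_
    rw [Real.log_pow]
    push_cast
    linarith
  set Y : ℕ := ⌊(X : ℝ) ^ t⌋₊ with hY
  have hYH : H ≤ Y := Nat.le_floor hXt
  have hYle : (Y : ℝ) ≤ (X : ℝ) ^ t := Nat.floor_le (by positivity)
  have hYz : Y ≤ X := by
    have : (Y : ℝ) ≤ X := hYle.trans (by
      calc (X : ℝ) ^ t ≤ (X : ℝ) ^ (1 : ℝ) := Real.rpow_le_rpow_of_exponent_le hX1 ht'
        _ = X := Real.rpow_one _)
    exact_mod_cast this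
  have hY4 : (4 : ℝ) ≤ Y := hH4.trans (by exact_mod_cast hYH)
  have hfil : ((PP H X).powerset).filter
        (fun R : Finset ℕ => Real.log (∏ p ∈ R, (p : ℝ)) / Real.log X ≤ t) =
      (PP H X).powerset.filter (fun R : Finset ℕ => ∏ p ∈ R, p ≤ Y) := by
    refine Finset.filter_congr (fun R hR => ?_)
    have hRP : ∀ p ∈ R, p.Prime := fun p hp => PP_prime (Finset.mem_powerset.mp hR hp)
    have h1 := prod_ge_one hRP
    rw [div_le_iff₀ hlX, hY, Nat.le_floor_iff (by positivity)]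
    push_cast
    rw [← Real.log_rpow hX0]
    exact Real.log_le_log_iff (by linarith) (by positivity)
  rw [hfil]
  constructor
  · have h := h2 H X Y (by omega) hYz
    have hlogY : t / 2 * Real.log X ≤ Real.log Y := by
      have h5 : (X : ℝ) ^ t < Y + 1 := Nat.lt_floor_add_one _
      have h6 : t * Real.log X ≤ Real.log (Y + 1) := by
        rw [← Real.log_rpow hX0]
        exact Real.log_le_log (by positivity) h5.le
      have h7 : Real.log (Y + 1) ≤ Real.log (Y ^ 2) := by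
        refine Real.log_le_log (by positivity) ?_
        nlinarith
      rw [Real.log_pow] at h7
      push_cast at h7
      linarith
    have h8 : t / (2 * v) ≤ Real.log Y / Real.log H := by
      rw [div_le_div_iff₀ (by positivity) hlH]
      calc t * Real.log H ≤ t * (v * Real.log X) := by gcongr
        _ = (t / 2 * Real.log X) * (2 * v) := by ring
        _ ≤ Real.log Y * (2 * v) := by gcongr
    have h9 : t / (2 * C1 * v) = (t / (2 * v)) / C1 := by
      field_simp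
    rw [h9, div_le_iff₀ (by linarith)]
    calc t / (2 * v) ≤ Real.log Y / Real.log H := h8
      _ ≤ _ := h
      _ = _ := mul_comm _ _
  · have h := h3 H X Y (by omega) hYH
    refine h.trans ?_
    have hlogY : Real.log Y ≤ t * Real.log X := by
      rw [← Real.log_rpow hX0]
      exact Real.log_le_log (by linarith) hYle
    have h8 : Real.log Y / Real.log H ≤ 2 * t / v := by
      rw [div_le_div_iff₀ hlH hv]
      calc Real.log Y * v ≤ (t * Real.log X) * v := by gcongr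
        _ = t * (v * Real.log X) := by ring
        _ ≤ t * (2 * Real.log H) := by gcongr
        _ = 2 * t * Real.log H := by ring
    calc C1 * (Real.log Y / Real.log H) ≤ C1 * (2 * t / v) := by gcongr
      _ = 2 * C1 * t / v := by ring

end Pool.Agent.J4H30.AW
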