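import Pool.Agent.J4H30.AW.Basic

/-!
Project AW, part 2: the total error is monotone in the exponent.
-/

set_option autoImplicit false

open Finset Filter

namespace Pool.Agent.J4H30.AW

open Pool.Agent.H410R2.AC Pool.Agent.H410R2.EN

lemma ET_mono (K K' : ℕ) (hK : K ≤ K') (hK1 : 1 ≤ K) (P : Finset ℕ) (D0 : ℕ) (err : Finset ℕ → ℝ)
    (herr : ∀ T ⊆ P, ∏ p ∈ T, p ≤ D0 → 0 ≤ err T) : ET K P D0 err ≤ ET K' P D0 err := by
  unfold ET
  refine Finset.sum_le_sum fun T hT => ?_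
  rw [Finset.mem_filter, Finset.mem_powerset] at hT
  refine mul_le_mul_of_nonneg_right ?_ (herr T hT.1 hT.2)
  have : (K : ℝ) ≤ K' := by exact_mod_cast hK
  gcongr

end Pool.Agent.J4H30.AW
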