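import Pool.Agent.J4H30.VW.EngD

/-!
Project AW, part 5: the core theorem for weighted sets, with a positive proportion.  If a weight is
equidistributed (in total error) then a positive proportion of its mass has all positions of `B` hit
by primes.
-/

set_option autoImplicit false

open Finset Filter

namespace Pool.Agent.J4H30.AW

open Pool.Agent.H410R2.AC Pool.Agent.H410R2.EN Pool.Agent.J4H30.VW

open Classical in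
/-- CORE: a positive proportion of the mass has all positions hit -/
theorem core_pos (C D₀ : ℝ) (hC : 1 ≤ C) : ∃ c₀ : ℝ, 0 < c₀ ∧ ∃ K : ℕ, 1 ≤ K ∧ ∃ δ : ℝ, 0 < δ ∧
    ∃ X₀ : ℕ, ∀ X : ℕ, X₀ ≤ X →
    ∀ z0 : ℕ, K ≤ z0 → (z0 : ℝ) ≤ Real.log X →
    ∀ (B : Finset ℕ) (ρ : ℕ → ℕ → ℕ) (w : ℕ → ℝ) (M : ℕ) (A : ℝ) (err : Finset ℕ → ℝ),
      (B.card : ℝ) * Real.log z0 ≤ C * Real.log X →
      (∀ p ∈ PP z0 X, ∀ a ∈ B, ρ p a < p) → (∀ m, 0 ≤ w m) → 0 < A →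
      Equid (fun p _ => 1 / (p : ℝ)) w M A (PP z0 X) X err →
      (∀ U ⊆ B, U.card ≤ K → dl (fun p => p) ρ (PP z0 X) U ≤ δ) →
      ET K (PP z0 X) X err ≤ A / Real.log X ^ K →
      (∀ m < M, w m ≠ 0 → ∀ a ∈ B,
        ∏ p ∈ (PP z0 X).filter (fun p => m % p = ρ p a), (p : ℝ) ≤ (X : ℝ) ^ D₀) →
      c₀ * A ≤ ∑ m ∈ (range M).filter (fun m => ∀ a ∈ B, ∃ p ∈ PP z0 X, m % p = ρ p a), w m := by
  obtain ⟨C1, hC1, hN1, hN2, hN3, -, -, -⟩ := Pool.Agent.H647R2.ACNT.nt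
  -- parameters
  obtain ⟨η, hη0, hηle, hη'⟩ := eta_choice C C1 (1 / 4) hC hC1 (by norm_num)
  obtain ⟨n, u, β, V₀, hV₀, huβ, hβs, hus, hS⟩ := Pool.Agent.H708R2.types (2 * C1) η (1 / 8)
    (by linarith) hη0 (by norm_num)
  have hn0 : 0 < n := by
    rcases Nat.eq_zero_or_pos n with h | h
    · subst h
      simp at hβs
    · exact h
  haveI : Nonempty (Fin n) := ⟨⟨0, hn0⟩⟩
  obtain ⟨βm, hβm0, hβm⟩ : ∃ βm : ℝ, 0 < βm ∧ ∀ τ, βm ≤ β τ := by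
    obtain ⟨τ0, -, h⟩ := Finset.exists_min_image (Finset.univ : Finset (Fin n)) β
      Finset.univ_nonempty
    exact ⟨β τ0, (huβ τ0).2, fun τ => h τ (Finset.mem_univ τ)⟩
  have hηβ : 0 < η / βm := by positivity
  have hCC1 : 0 < C * C1 := by positivity
  obtain ⟨C2, hC2', hC2a, hC2b, hC2d⟩ : ∃ C2 : ℝ, 1 ≤ C2 ∧ 2 * C1 ≤ C2 ∧
      2 * C * C1 ≤ C2 ∧ η / βm ≤ C2 :=
    ⟨2 * C1 + 4 * C * C1 + η / βm + 1, by linarith, by linarith, by linarith, by linarith⟩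
  obtain ⟨K₁, hK₁, hSec⟩ := secondW n C2 hC2'
  obtain ⟨K₄, hK₄, hFou⟩ := fourthW n C2 hC2'
  -- the smallness constants
  obtain ⟨t, ht⟩ : ∃ t : ℝ, t = 1 / 8 := ⟨_, rfl⟩
  have ht0 : 0 < t := by rw [ht]; norm_num
  obtain ⟨c2, hc2⟩ : ∃ c2 : ℝ, c2 = 512 * C * C1 ^ 3 := ⟨_, rfl⟩
  have hc20 : 0 < c2 := by rw [hc2]; positivity
  obtain ⟨b, v, δ, s, s5, hKb, hK₄b, -, hv0, hvV, hv8, hvK, hvK₄, -, hδ0, hδ1, hsdef, -,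
    hs0, hst, hst8, -⟩ := params K₁ K₄ K₁ hK₁ hK₄ hK₁ V₀ c2 t hV₀ hc20 ht0
  -- the exponent
  obtain ⟨K, hKK₁, hKK₄, hK4n⟩ : ∃ K : ℕ, K₁ ≤ K ∧ K₄ ≤ K ∧ 4 * n + 5 ≤ K :=
    ⟨K₁ + K₄ + (4 * n + 5), by omega, by omega, by omega⟩
  obtain ⟨k0, hk0⟩ : ∃ k0 : ℕ, 2 * D₀ / v ≤ k0 := exists_nat_ge _
  obtain ⟨D, hD⟩ : ∃ D : ℝ, D = (K₁ : ℝ) / v ^ K₁ * (2 * C) ^ (2 * n + 2) *
    (1 + C * (16 * C1) ^ 2) := ⟨_, rfl⟩
  -- asymptotic facts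
  have hev2 : ∀ᶠ X : ℕ in atTop, D / (t / 2) ≤ Real.log X := tendsto_log_nat.eventually_ge_atTop _
  have hev5 : ∀ᶠ X : ℕ in atTop, (2 * C) ^ (4 * n) ≤ Real.log X :=
    tendsto_log_nat.eventually_ge_atTop _
  obtain ⟨X₀, hX₀⟩ := eventually_atTop.mp (hev2.and (hev5.and (exists_scale v hv0 hv8)))
  obtain ⟨G, hG⟩ : ∃ G : ℝ, G = (K₄ / v) ^ K₄ * 2 ^ (4 * n * k0) := ⟨_, rfl⟩
  have hK₄0 : (0 : ℝ) < K₄ := by exact_mod_cast hK₄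
  have hG0 : 0 < G := by rw [hG]; positivity
  refine ⟨(1 / 4) / (G * 2), by positivity, K, hK₁.trans hKK₁, δ, hδ0, X₀,
    fun X hX z0 hz0K hz0X B ρ w M A err hBc hρ hw hA hEq hdl hET hprod => ?_⟩
  obtain ⟨he2, he5, J, hsc⟩ := hX₀ X hX
  have ht2 : 0 < t / 2 := by positivity
  have hDL : D ≤ t / 2 * Real.log X := by
    rw [div_le_iff₀ ht2] at he2
    linarith
  obtain ⟨P1, P2, S, Y, Y1, S1, hP2eq, hdat⟩ := exists_data hC1 hN1 hN2 hN3 hη0 hv0 hvV hv8 huβ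
    hus hS hsc (by omega) hz0X
  have hl1 := scale_pow hsc K₁ b hvK
  have hl4 := scale_pow hsc K₄ b hvK₄
  have hE : EqX X z0 w M A err K := ⟨hw, hA, hEq, hET⟩
  have hβp : ∀ τ, 0 < β τ := fun τ => (huβ τ).2
  obtain ⟨r1, r2, r3⟩ := single_rough hC hC1 hη0 hηle hη' hβs hβp hβm0 hβm hC2a hC2b hC2d hK₁ hSec
    ht0 hc2 hKb hv0 hv8 hδ1 hsdef hs0 hst hst8 hKK₁ hK4n hD hsc hDL hdat hl1 hz0K hE hBc hρ hdl
  have r4 := single_four hC hC1 hη0 hβp hβm0 hβm hC2a hC2b hC2d hK₄ hFou hK₄b hv0 hv8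
    hδ1 hKK₄ hK4n hk0 he5 hsc hP2eq hdat hl4 hz0K hE hBc hρ hdl hprod
  have hsplit := Finset.sum_filter_add_sum_filter_not (range M)
    (fun m => ∀ a ∈ B, ∃ p ∈ PP z0 X, m % p = ρ p a)
    (fun m => w m * Wt n ρ P1 S (fun τ => β τ / GG (S τ)) B m ^ 2)
  obtain ⟨Ms, hMs⟩ : ∃ Ms : ℝ,
    Ms = Mass n (fun τ => (β τ / GG (S τ)) ^ 2 * (V1 P1 * GG (S τ))) B := ⟨_, rfl⟩
  rw [← hMs] at r1 r2 r3
  refine final_cs (range M) _ w (fun m => Wt n ρ P1 S (fun τ => β τ / GG (S τ)) B m) hw hA hG0 ?_ ?_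
  · have h1 : A * 1 ≤ A * Ms := mul_le_mul_of_nonneg_left r1.1 hA.le
    have h2 : A * (Ms - t) = A * Ms - A * (1 / 8) := by rw [ht]; ring
    have h3 : A * (1 / 4 * Ms + t) = A * Ms * (1 / 4) + A * (1 / 8) := by rw [ht]; ring
    have h4 : ∑ m ∈ (range M).filter (fun m => ¬ ∀ a ∈ B, ∃ p ∈ PP z0 X, m % p = ρ p a),
        w m * Wt n ρ P1 S (fun τ => β τ / GG (S τ)) B m ^ 2 ≤ A * (1 / 4 * Ms + t) := by
      convert r3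
    linarith
  · refine r4.trans (le_of_eq ?_)
    rw [← hG]
    ring

end Pool.Agent.J4H30.AW
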