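import Pool.Agent.J4H30.AW.Core
import Pool.Agent.H575R2.EN4

/-!
Project AW, part 2b: fourth moments, and the Cauchy-Schwarz inequality at the end.
-/

set_option autoImplicit false

open Finset Filter

namespace Pool.Agent.J4H30.AW

open Pool.Agent.H410R2.AC Pool.Agent.H410R2.EN

theorem fourthW : Pool.Agent.H410R2.EN.FourthW :=
  Pool.Agent.H575R2.EN4.fourthW_of Pool.Agent.H212R2.AC4b.countMaps
    (Pool.Agent.H488R2.EN2a.expandW_of Pool.Agent.H20R2.fLem)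

/-- Cauchy-Schwarz -/
lemma final_cs (R : Finset ℕ) (P : ℕ → Prop) [DecidablePred P] (w F : ℕ → ℝ) (hw : ∀ m, 0 ≤ w m)
    {A G : ℝ} (hA : 0 < A) (hG : 0 < G) (h2 : A / 2 ≤ ∑ m ∈ R.filter P, w m * F m ^ 2)
    (h4 : ∑ m ∈ R, w m * F m ^ 4 ≤ G * (A + A)) :
    (1 / 4) / (G * 2) * A ≤ ∑ m ∈ R.filter P, w m := by
  have h0 : 0 ≤ ∑ m ∈ R.filter P, w m := Finset.sum_nonneg fun m _ => hw m
  have hcs : (∑ m ∈ R.filter P, w m * F m ^ 2) ^ 2 ≤
      (∑ m ∈ R.filter P, w m) * ∑ m ∈ R.filter P, w m * F m ^ 4 := by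
    have h := Finset.sum_mul_sq_le_sq_mul_sq (R.filter P) (fun m => Real.sqrt (w m))
      (fun m => Real.sqrt (w m) * F m ^ 2)
    have e1 : ∀ m ∈ R.filter P, Real.sqrt (w m) * (Real.sqrt (w m) * F m ^ 2) = w m * F m ^ 2 := by
      intro m _
      rw [← mul_assoc, Real.mul_self_sqrt (hw m)]
    have e2 : ∀ m ∈ R.filter P, Real.sqrt (w m) ^ 2 = w m := fun m _ => Real.sq_sqrt (hw m)
    have e3 : ∀ m ∈ R.filter P, (Real.sqrt (w m) * F m ^ 2) ^ 2 = w m * F m ^ 4 := by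
      intro m _
      rw [mul_pow, Real.sq_sqrt (hw m)]
      ring
    rw [Finset.sum_congr rfl e1, Finset.sum_congr rfl e2, Finset.sum_congr rfl e3] at h
    exact h
  have h4' : ∑ m ∈ R.filter P, w m * F m ^ 4 ≤ G * (A + A) := by
    refine le_trans (Finset.sum_le_sum_of_subset_of_nonneg (Finset.filter_subset _ _)
      (fun m _ _ => mul_nonneg (hw m) (by positivity))) h4
  have h5 : (A / 2) ^ 2 ≤ (∑ m ∈ R.filter P, w m) * (G * (A + A)) := by
    calc (A / 2) ^ 2 ≤ (∑ m ∈ R.filter P, w m * F m ^ 2) ^ 2 := by gcongr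
      _ ≤ _ := hcs
      _ ≤ _ := by gcongr
  have h6 : (A / 2) ^ 2 / (G * (A + A)) ≤ ∑ m ∈ R.filter P, w m := by
    rw [div_le_iff₀ (by positivity)]
    exact h5
  refine le_trans (le_of_eq ?_) h6
  field_simp
  ring

end Pool.Agent.J4H30.AW
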