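import Pool.Agent.H212R2.AC4b
import Pool.Agent.H909R2.EN3
import Pool.Agent.H602R2.MomW
import Pool.Agent.H415R2.ACLocal
import Pool.Agent.H488R2.EN.D
import Pool.Agent.H911R2.EN.SumW
import Pool.Agent.H20R2.EN.FLem
import Pool.Agent.H708R2.ACTypes
import Pool.Agent.H410R2.ACCore1
import Pool.Agent.H410R2.ACCore2
import Pool.Agent.H410R2.ACCore3
import Pool.Agent.H898R2.AC5
import Pool.Agent.H647R2.ACNT
import Pool.Agent.Helper112.LS

/-! Imports for the project AW: large gaps in almost all short windows. -/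

set_option autoImplicit false

namespace Pool.Agent.J4H30.AW

theorem secondW : Pool.Agent.H410R2.EN.SecondW :=
  Pool.Agent.H909R2.EN3.secondW_of Pool.Agent.H212R2.AC4b.countMaps
    (Pool.Agent.H602R2.momW_of (Pool.Agent.H488R2.EN2a.expandW_of Pool.Agent.H20R2.fLem)
      Pool.Agent.H911R2.EN.sumW Pool.Agent.H415R2.ACLocal.localSum)

end Pool.Agent.J4H30.AW
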