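import Pool.Agent.J4H30.AW.Basic

/-!
Project AW, part 3: equidistribution of the uniform measure on the windows `[e, e + J)`, `e ∈ E`,
from the large sieve.
-/

set_option autoImplicit false

open Finset Filter

namespace Pool.Agent.J4H30.AW

open Pool.Agent.Helper112

/-- orthogonality -/
lemma orth (q : ℕ) (hq : 0 < q) (m : ℤ) :
    ∑ a ∈ range q, ee ((m : ℝ) * ((a : ℝ) / q)) = if (q : ℤ) ∣ m then (q : ℂ) else 0 := by
  have hqR : (q : ℝ) ≠ 0 := by positivity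
  split_ifs with h
  · obtain ⟨k, rfl⟩ := h
    have : ∀ a ∈ range q, ee (((q * k : ℤ) : ℝ) * ((a : ℝ) / q)) = 1 := by
      intro a _
      have e : ((q * k : ℤ) : ℝ) * ((a : ℝ) / q) = ((a * k : ℤ) : ℝ) := by
        push_cast
        field_simp
      rw [e, ls_ee_int]
    rw [Finset.sum_congr rfl this]
    simp
  · have h1 : ∀ a ∈ range q, ee ((m : ℝ) * ((a : ℝ) / q)) = ee ((m : ℝ) / q) ^ a := by
      intro a _
      rw [← ls_ee_nat_mul]
      congr 1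
      ring
    rw [Finset.sum_congr rfl h1]
    have h2 : ee ((m : ℝ) / q) ≠ 1 := by
      intro h3
      obtain ⟨n, hn⟩ := ls_ee_eq_one h3
      apply h
      refine ⟨n, ?_⟩
      have : (m : ℝ) = ((q * n : ℤ) : ℝ) := by
        push_cast
        rw [div_eq_iff hqR] at hn
        linarith
      exact_mod_cast this
    have h3 := geom_sum_mul (ee ((m : ℝ) / q)) q
    have h4 : ee ((m : ℝ) / q) ^ q = 1 := by
      rw [← ls_ee_nat_mul]
      have : (q : ℝ) * ((m : ℝ) / q) = m := by field_simp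
      rw [this, ls_ee_int]
    rw [h4, sub_self] at h3
    exact (mul_eq_zero.mp h3).resolve_right (sub_ne_zero.mpr h2)

/-- fractions in lowest terms -/
lemma sum_frac_le (q : ℕ) (hq : 0 < q) (F : ℝ → ℝ) (hF : ∀ x, 0 ≤ F x) :
    ∑ a ∈ Ioo 0 q, F ((a : ℝ) / q) ≤ ∑ d ∈ q.divisors.erase 1,
      ∑ b ∈ (range d).filter (fun b => b.Coprime d), F ((b : ℝ) / d) := by
  classical
  rw [Finset.sum_sigma']
  set φ : ℕ → (Σ _ : ℕ, ℕ) := fun a => ⟨q / Nat.gcd a q, a / Nat.gcd a q⟩ with hφ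
  set G : (Σ _ : ℕ, ℕ) → ℝ := fun x => F ((x.2 : ℝ) / x.1) with hG
  have hval : ∀ a ∈ Ioo 0 q, (((φ a).2 : ℕ) : ℝ) / (((φ a).1 : ℕ) : ℝ) = (a : ℝ) / q := by
    intro a ha
    rw [mem_Ioo] at ha
    simp only [hφ]
    have hg : 0 < Nat.gcd a q := Nat.gcd_pos_of_pos_right a hq
    rw [Nat.cast_div (Nat.gcd_dvd_left a q) (by positivity),
      Nat.cast_div (Nat.gcd_dvd_right a q) (by positivity)]
    have : ((Nat.gcd a q : ℕ) : ℝ) ≠ 0 := by positivity
    have : (q : ℝ) ≠ 0 := by positivity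
    field_simp
  have hinj : Set.InjOn φ (Ioo 0 q : Finset ℕ) := by
    intro a ha a' ha' h
    have h1 := hval a ha
    have h2 := hval a' ha'
    rw [h] at h1
    have hqR : (q : ℝ) ≠ 0 := by positivity
    have h3 : (a : ℝ) / q = (a' : ℝ) / q := h1.symm.trans h2
    have h4 : (a : ℝ) = a' := by
      field_simp at h3
      exact h3
    exact_mod_cast h4
  have h1 : ∑ a ∈ Ioo 0 q, F ((a : ℝ) / q) = ∑ x ∈ (Ioo 0 q).image φ, G x := by
    rw [Finset.sum_image hinj]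
    refine Finset.sum_congr rfl fun a ha => ?_
    simp only [hG]
    rw [hval a ha]
  rw [h1]
  refine Finset.sum_le_sum_of_subset_of_nonneg ?_ (fun x _ _ => hF _)
  intro x hx
  rw [Finset.mem_image] at hx
  obtain ⟨a, ha, rfl⟩ := hx
  rw [mem_Ioo] at ha
  simp only [hφ, mem_sigma, mem_erase, Nat.mem_divisors, mem_filter, mem_range]
  have hg : 0 < Nat.gcd a q := Nat.gcd_pos_of_pos_right a hq
  have hgq : Nat.gcd a q ∣ q := Nat.gcd_dvd_right a q
  have hga : Nat.gcd a q ∣ a := Nat.gcd_dvd_left a q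
  have hlt : a / Nat.gcd a q < q / Nat.gcd a q := Nat.div_lt_div_of_lt_of_dvd hgq ha.2
  have hpos : 0 < a / Nat.gcd a q := Nat.div_pos (Nat.le_of_dvd ha.1 hga) hg
  refine ⟨⟨?_, Nat.div_dvd_of_dvd hgq, hq.ne'⟩, hlt, ?_⟩
  · omega
  · exact Nat.coprime_div_gcd_div_gcd hg

/-- exponential sum over the window -/
noncomputable def KJ (J : ℕ) (θ : ℝ) : ℂ := (1 / (J : ℂ)) * ∑ j ∈ range J, ee (j * θ)

/-- exponential sum over the set -/
noncomputable def SE (E : Finset ℕ) (θ : ℝ) : ℂ := ∑ e ∈ E, ee (e * θ)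

lemma count_pairs (J d : ℕ) (hd : 0 < d) :
    ((((range J) ×ˢ (range J)).filter (fun x : ℕ × ℕ => (d : ℤ) ∣ (x.1 : ℤ) - x.2)).card : ℝ) ≤
      J * ((J : ℝ) / d + 1) := by
  have h1 : (((range J) ×ˢ (range J)).filter (fun x : ℕ × ℕ => (d : ℤ) ∣ (x.1 : ℤ) - x.2)).card =
      ∑ j ∈ range J, ((range J).filter (fun i : ℕ => (d : ℤ) ∣ (j : ℤ) - i)).card := by
    rw [Finset.card_filter, Finset.sum_product]
    refine Finset.sum_congr rfl fun j _ => ?_
    rw [Finset.card_filter]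
  rw [h1]
  push_cast
  have h2 : ∀ j ∈ range J, (((range J).filter (fun i : ℕ => (d : ℤ) ∣ (j : ℤ) - i)).card : ℝ) ≤
      (J : ℝ) / d + 1 := by
    intro j _
    have h3 : ((range J).filter (fun i : ℕ => (d : ℤ) ∣ (j : ℤ) - i)) =
        (range J).filter (fun i : ℕ => i ≡ j [MOD d]) := by
      refine Finset.filter_congr fun i _ => ?_
      rw [← Int.modEq_iff_dvd]
      exact Int.natCast_modEq_iff
    rw [h3, ← Nat.count_eq_card_filter_range, Nat.count_modEq_card _ hd]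
    have h4 : ((J / d : ℕ) : ℝ) ≤ (J : ℝ) / d := Nat.cast_div_le
    split_ifs <;> push_cast <;> linarith
  calc ∑ j ∈ range J, (((range J).filter (fun i : ℕ => (d : ℤ) ∣ (j : ℤ) - i)).card : ℝ) ≤
        ∑ j ∈ range J, ((J : ℝ) / d + 1) := Finset.sum_le_sum h2
    _ = J * ((J : ℝ) / d + 1) := by rw [Finset.sum_const, card_range, nsmul_eq_mul]

/-- mean square of the window sum over the nonzero fractions with denominator `d` -/
lemma KJ_sq (J d : ℕ) (hJ : 0 < J) (hd : 0 < d) :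
    ∑ a ∈ range d, ‖KJ J ((a : ℝ) / d)‖ ^ 2 ≤ 1 + (d : ℝ) / J := by
  have hJR : (J : ℝ) ≠ 0 := by positivity
  have hdR : (d : ℝ) ≠ 0 := by positivity
  have key : ((∑ a ∈ range d, ‖KJ J ((a : ℝ) / d)‖ ^ 2 : ℝ) : ℂ) =
      ((((((range J) ×ˢ (range J)).filter (fun x : ℕ × ℕ => (d : ℤ) ∣ (x.1 : ℤ) - x.2)).card : ℝ) *
        (d / (J : ℝ) ^ 2) : ℝ) : ℂ) := by
    push_cast
    have h1 : ∀ a ∈ range d, ((‖KJ J ((a : ℝ) / d)‖ : ℂ)) ^ 2 =
        ∑ x ∈ range J ×ˢ range J, (1 / (J : ℂ)) ^ 2 *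
          ee (((((x.1 : ℤ) - (x.2 : ℤ) : ℤ)) : ℝ) * ((a : ℝ) / d)) := by
      intro a _
      rw [← Complex.mul_conj']
      unfold KJ
      rw [map_mul, map_sum]
      have e : (starRingEnd ℂ) (1 / (J : ℂ)) = 1 / (J : ℂ) := by simp
      rw [e, mul_mul_mul_comm, Finset.sum_mul_sum, ← Finset.sum_product', Finset.mul_sum]
      refine Finset.sum_congr rfl fun x _ => ?_
      rw [ls_conj_ee, ← ls_ee_add, ← pow_two]
      congr 2
      push_cast
      ring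
    rw [Finset.sum_congr rfl h1, Finset.sum_comm]
    have h2 : ∀ x ∈ range J ×ˢ range J, ∑ a ∈ range d, (1 / (J : ℂ)) ^ 2 *
        ee (((((x.1 : ℤ) - (x.2 : ℤ) : ℤ)) : ℝ) * ((a : ℝ) / d)) =
        if (d : ℤ) ∣ (x.1 : ℤ) - (x.2 : ℤ) then (1 / (J : ℂ)) ^ 2 * d else 0 := by
      intro x _
      rw [← Finset.mul_sum, orth d hd]
      split_ifs <;> simp
    rw [Finset.sum_congr rfl h2, ← Finset.sum_filter, Finset.sum_const, nsmul_eq_mul]
    ring
  have key2 : ∑ a ∈ range d, ‖KJ J ((a : ℝ) / d)‖ ^ 2 =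
      ((((range J) ×ˢ (range J)).filter (fun x : ℕ × ℕ => (d : ℤ) ∣ (x.1 : ℤ) - x.2)).card : ℝ) *
        (d / (J : ℝ) ^ 2) := by exact_mod_cast key
  rw [key2]
  calc _ ≤ (J * ((J : ℝ) / d + 1)) * (d / (J : ℝ) ^ 2) :=
        mul_le_mul_of_nonneg_right (count_pairs J d hd) (by positivity)
    _ = 1 + (d : ℝ) / J := by field_simp

lemma KJ_sq' (J d : ℕ) (hJ : 0 < J) (hd : 1 < d) :
    ∑ a ∈ (range d).filter (fun a => a.Coprime d), ‖KJ J ((a : ℝ) / d)‖ ^ 2 ≤ (d : ℝ) / J := by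
  have h1 := KJ_sq J d hJ (by omega)
  have h0 : KJ J (((0 : ℕ) : ℝ) / d) = 1 := by
    unfold KJ
    have : (J : ℂ) ≠ 0 := by exact_mod_cast hJ.ne'
    simp [ls_ee_zero, this]
  have h2 : range d = insert 0 ((range d).erase 0) := by
    rw [Finset.insert_erase (mem_range.mpr (by omega))]
  rw [h2, Finset.sum_insert (by simp), h0] at h1
  simp only [norm_one, one_pow] at h1
  refine le_trans (Finset.sum_le_sum_of_subset_of_nonneg ?_ (fun _ _ _ => by positivity))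
    (by linarith : ∑ a ∈ (range d).erase 0, ‖KJ J ((a : ℝ) / d)‖ ^ 2 ≤ (d : ℝ) / J)
  intro a ha
  rw [mem_filter] at ha
  rw [mem_erase]
  refine ⟨?_, ha.1⟩
  rintro rfl
  have := ha.2
  rw [Nat.coprime_zero_left] at this
  omega

/-- mean square of the exponential sum over the fractions with denominator `d` -/
noncomputable def TT (E : Finset ℕ) (d : ℕ) : ℝ :=
  ∑ a ∈ (range d).filter (fun a => a.Coprime d), ‖SE E ((a : ℝ) / d)‖ ^ 2

lemma TT_nonneg (E : Finset ℕ) (d : ℕ) : 0 ≤ TT E d := Finset.sum_nonneg fun _ _ => by positivity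

lemma TT_sum (E : Finset ℕ) (N D : ℕ) (hE : E ⊆ Icc 1 N) :
    ∑ d ∈ Icc 1 D, TT E d ≤ 6 * (N + (D : ℝ) ^ 2) * E.card := by
  classical
  have h := additive_large_sieve N D (fun n => if n ∈ E then 1 else 0)
  have h1 : ∑ n ∈ Icc 1 N, ‖(if n ∈ E then (1 : ℂ) else 0)‖ ^ 2 = E.card := by
    have : ∀ n ∈ Icc 1 N, ‖(if n ∈ E then (1 : ℂ) else 0)‖ ^ 2 = if n ∈ E then (1 : ℝ) else 0 := by
      intro n _
      split_ifs <;> simp
    rw [Finset.sum_congr rfl this, ← Finset.sum_filter, Finset.sum_const, nsmul_eq_mul, mul_one]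
    congr 2
    ext n
    rw [mem_filter]
    exact ⟨fun h => h.2, fun h => ⟨hE h, h⟩⟩
  rw [h1] at h
  refine le_trans (le_of_eq ?_) h
  refine Finset.sum_congr rfl fun d _ => ?_
  unfold TT
  refine Finset.sum_congr rfl fun a _ => ?_
  congr 2
  unfold SE
  have h2 : ∀ n ∈ Icc 1 N, (if n ∈ E then (1 : ℂ) else 0) * ee (n * a / d) =
      if n ∈ E then ee (n * a / d) else 0 := by
    intro n _
    split_ifs <;> simp
  rw [Finset.sum_congr rfl h2, ← Finset.sum_filter]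
  have h3 : (Icc 1 N).filter (fun n => n ∈ E) = E := by
    ext n
    rw [mem_filter]
    exact ⟨fun h => h.2, fun h => ⟨hE h, h⟩⟩
  rw [h3]
  refine Finset.sum_congr rfl fun n _ => ?_
  rw [mul_div_assoc]

/-- the discrepancy in one residue class -/
lemma disc (E : Finset ℕ) (J q : ℕ) (hJ : 0 < J) (hq : 0 < q) (r : ℕ) :
    |(1 / (J : ℝ)) * ∑ e ∈ E, ∑ j ∈ range J, (if (q : ℤ) ∣ ((e + j : ℕ) : ℤ) - r then (1 : ℝ) else 0) -
      E.card / q| ≤
      (1 / (q : ℝ)) * ∑ d ∈ q.divisors.erase 1, Real.sqrt (TT E d * (d / J)) := by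
  have hJR : (J : ℝ) ≠ 0 := by positivity
  have hqR : (q : ℝ) ≠ 0 := by positivity
  have hJC : (J : ℂ) ≠ 0 := by exact_mod_cast hJ.ne'
  have hqC : (q : ℂ) ≠ 0 := by exact_mod_cast hq.ne'
  have key : ((((1 / (J : ℝ)) * ∑ e ∈ E, ∑ j ∈ range J,
      (if (q : ℤ) ∣ ((e + j : ℕ) : ℤ) - r then (1 : ℝ) else 0)) : ℝ) : ℂ) =
      (1 / (q : ℂ)) * ∑ a ∈ range q, ee (-(r * ((a : ℝ) / q))) * (SE E ((a : ℝ) / q) *
        KJ J ((a : ℝ) / q)) := by
    push_cast
    have h1 : ∀ e ∈ E, ∀ j ∈ range J,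
        (((if (q : ℤ) ∣ ((e : ℤ) + j) - r then (1 : ℝ) else 0) : ℝ) : ℂ) =
        (1 / (q : ℂ)) * ∑ a ∈ range q, ee (((((e : ℤ) + j) - r : ℤ) : ℝ) * ((a : ℝ) / q)) := by
      intro e _ j _
      rw [orth q hq]
      split_ifs
      · field_simp
        simp
      · simp
    rw [Finset.sum_congr rfl fun e he => Finset.sum_congr rfl fun j hj => h1 e he j hj]
    simp only [← Finset.mul_sum]
    rw [← mul_assoc, mul_comm (1 / (J : ℂ)) (1 / (q : ℂ)), mul_assoc]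
    congr 1
    rw [Finset.mul_sum]
    have h2 : ∀ e ∈ E, (1 / (J : ℂ)) * ∑ j ∈ range J, ∑ a ∈ range q,
        ee (((((e : ℤ) + j) - r : ℤ) : ℝ) * ((a : ℝ) / q)) =
        ∑ a ∈ range q, ee (-(r * ((a : ℝ) / q))) * (ee (e * ((a : ℝ) / q)) *
          KJ J ((a : ℝ) / q)) := by
      intro e _
      rw [Finset.sum_comm, Finset.mul_sum]
      refine Finset.sum_congr rfl fun a _ => ?_
      unfold KJ
      rw [Finset.mul_sum, Finset.mul_sum, Finset.mul_sum, Finset.mul_sum]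
      refine Finset.sum_congr rfl fun j _ => ?_
      have : ee (((((e : ℤ) + j) - r : ℤ) : ℝ) * ((a : ℝ) / q)) =
          ee (-(r * ((a : ℝ) / q))) * (ee (e * ((a : ℝ) / q)) * ee (j * ((a : ℝ) / q))) := by
        rw [← ls_ee_add, ← ls_ee_add]
        congr 1
        push_cast
        ring
      rw [this]
      ring
    rw [Finset.sum_congr rfl h2, Finset.sum_comm]
    refine Finset.sum_congr rfl fun a _ => ?_
    unfold SE
    rw [Finset.sum_mul, Finset.mul_sum]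
  -- remove the frequency zero
  have h0 : ee (-(r * (((0 : ℕ) : ℝ) / q))) * (SE E (((0 : ℕ) : ℝ) / q) *
      KJ J (((0 : ℕ) : ℝ) / q)) = E.card := by
    unfold SE KJ
    simp [ls_ee_zero, hJC]
  have h1 : range q = insert 0 (Ioo 0 q) := by
    ext x
    simp only [mem_range, mem_insert, mem_Ioo]
    omega
  rw [h1, Finset.sum_insert (by simp), h0, mul_add] at key
  have key2 : ((((1 / (J : ℝ)) * ∑ e ∈ E, ∑ j ∈ range J,
      (if (q : ℤ) ∣ ((e + j : ℕ) : ℤ) - r then (1 : ℝ) else 0) - E.card / q) : ℝ) : ℂ) =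
      (1 / (q : ℂ)) * ∑ a ∈ Ioo 0 q, ee (-(r * ((a : ℝ) / q))) * (SE E ((a : ℝ) / q) *
        KJ J ((a : ℝ) / q)) := by
    rw [Complex.ofReal_sub, key]
    push_cast
    ring
  have hnorm : |(1 / (J : ℝ)) * ∑ e ∈ E, ∑ j ∈ range J,
      (if (q : ℤ) ∣ ((e + j : ℕ) : ℤ) - r then (1 : ℝ) else 0) - E.card / q| =
      ‖(1 / (q : ℂ)) * ∑ a ∈ Ioo 0 q, ee (-(r * ((a : ℝ) / q))) * (SE E ((a : ℝ) / q) *
        KJ J ((a : ℝ) / q))‖ := by
    rw [← key2, Complex.norm_real, Real.norm_eq_abs]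
  rw [hnorm, norm_mul]
  have hq1 : ‖1 / (q : ℂ)‖ = 1 / (q : ℝ) := by simp
  rw [hq1]
  refine mul_le_mul_of_nonneg_left ?_ (by positivity)
  refine (norm_sum_le _ _).trans ?_
  have h2 : ∀ a ∈ Ioo 0 q, ‖ee (-(r * ((a : ℝ) / q))) * (SE E ((a : ℝ) / q) *
      KJ J ((a : ℝ) / q))‖ = ‖SE E ((a : ℝ) / q)‖ * ‖KJ J ((a : ℝ) / q)‖ := by
    intro a _
    rw [norm_mul, ls_norm_ee, one_mul, norm_mul]
  rw [Finset.sum_congr rfl h2]
  refine (sum_frac_le q hq (fun x => ‖SE E x‖ * ‖KJ J x‖) (fun x => by positivity)).trans ?_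
  refine Finset.sum_le_sum fun d hd => ?_
  rw [mem_erase, Nat.mem_divisors] at hd
  have hd0 : d ≠ 0 := fun h => by
    rw [h] at hd
    exact hd.2.2 (Nat.eq_zero_of_zero_dvd hd.2.1)
  have hd1 : 1 < d := by omega
  have h3 := Finset.sum_mul_sq_le_sq_mul_sq ((range d).filter (fun b => b.Coprime d))
    (fun b => ‖SE E ((b : ℝ) / d)‖) (fun b => ‖KJ J ((b : ℝ) / d)‖)
  refine Real.le_sqrt_of_sq_le (h3.trans ?_)
  exact mul_le_mul_of_nonneg_left (KJ_sq' J d hJ hd1) (TT_nonneg E d)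

end Pool.Agent.J4H30.AW
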