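import Pool.Agent.J4H30.AW.Win
import Pool.Agent.J4H30.VW.ParA

/-!
Project AW, part 7: in almost all short windows a positive proportion of the integers `m` are such that
all the numbers `m + s`, `s ∈ S`, have a small prime factor.
-/

set_option autoImplicit false

open Finset Filter

namespace Pool.Agent.J4H30.AW

open Pool.Agent.H410R2.AC Pool.Agent.H410R2.EN Pool.Agent.H143R2.ACF Pool.Agent.H647R2.ACNT
  Pool.Agent.J4H30.VW

/-- the exceptional set is small -/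
lemma final_bound {G ℓ ε x : ℝ} {N H W J K₂ K : ℕ} (hε : 0 < ε) (hG : 0 < G) (hℓ1 : 1 ≤ ℓ)
    (hxℓ : x ≤ ℓ) (hx0 : 0 ≤ x) (hHR0 : (0 : ℝ) < H) (hJR : (0 : ℝ) < J) (hH1 : ℓ ^ K ≤ H)
    (hK : 4 * (K₂ : ℝ) / ε + 1 ≤ K) (k2 : 16 * G ≤ (H : ℝ) ^ (ε / 2))
    (hWle : (W : ℝ) ≤ (H : ℝ) ^ (ε / 8)) (hJge : (H : ℝ) ≤ J * (4 * W)) :
    4 * (G * N * W / J * x ^ K₂) ≤ N * (H : ℝ) ^ ε / H := by
  have hℓ0 : 0 < ℓ := by linarith
  have hpowK : ℓ ^ K₂ ≤ (H : ℝ) ^ (ε / 4) := by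
    have h1 : ℓ ^ K₂ = (ℓ ^ ((4 * (K₂ : ℝ)) / ε)) ^ (ε / 4) := by
      rw [← Real.rpow_natCast, ← Real.rpow_mul hℓ0.le]
      congr 1
      field_simp
    rw [h1]
    refine Real.rpow_le_rpow (by positivity) ?_ (by positivity)
    refine le_trans ?_ hH1
    rw [← Real.rpow_natCast ℓ K]
    exact Real.rpow_le_rpow_of_exponent_le hℓ1 (by linarith)
  have hW0 : (0 : ℝ) ≤ W := Nat.cast_nonneg _
  have hH4 : 0 ≤ (H : ℝ) ^ (ε / 4) := by positivity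
  have hWJ : (W : ℝ) / J ≤ 4 * (H : ℝ) ^ (ε / 4) / H := by
    rw [div_le_div_iff₀ hJR hHR0]
    have h1 : (W : ℝ) * W ≤ (H : ℝ) ^ (ε / 4) := by
      calc (W : ℝ) * W ≤ (H : ℝ) ^ (ε / 8) * (H : ℝ) ^ (ε / 8) :=
            mul_le_mul hWle hWle hW0 (by positivity)
        _ = (H : ℝ) ^ (ε / 4) := by
          rw [← Real.rpow_add hHR0]
          congr 1
          ring
    calc (W : ℝ) * H ≤ W * (J * (4 * W)) := mul_le_mul_of_nonneg_left hJge hW0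
      _ = 4 * (W * W) * J := by ring
      _ ≤ 4 * (H : ℝ) ^ (ε / 4) * J :=
          mul_le_mul_of_nonneg_right (mul_le_mul_of_nonneg_left h1 (by norm_num)) hJR.le
  have hN : (0 : ℝ) ≤ N := Nat.cast_nonneg _
  have hx : x ^ K₂ ≤ (H : ℝ) ^ (ε / 4) := (pow_le_pow_left₀ hx0 hxℓ _).trans hpowK
  calc 4 * (G * N * W / J * x ^ K₂) = 4 * G * N * ((W / J) * x ^ K₂) := by ring
    _ ≤ 4 * G * N * ((4 * (H : ℝ) ^ (ε / 4) / H) * (H : ℝ) ^ (ε / 4)) := by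
        refine mul_le_mul_of_nonneg_left ?_ (by positivity)
        exact mul_le_mul hWJ hx (by positivity) (by positivity)
    _ = (16 * G) * (N * ((H : ℝ) ^ (ε / 4) * (H : ℝ) ^ (ε / 4)) / H) := by ring
    _ ≤ (H : ℝ) ^ (ε / 2) * (N * ((H : ℝ) ^ (ε / 4) * (H : ℝ) ^ (ε / 4)) / H) :=
        mul_le_mul_of_nonneg_right k2 (by positivity)
    _ = N * ((H : ℝ) ^ (ε / 2) * ((H : ℝ) ^ (ε / 4) * (H : ℝ) ^ (ε / 4))) / H := by ring
    _ = N * (H : ℝ) ^ ε / H := by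
      rw [← Real.rpow_add hHR0, ← Real.rpow_add hHR0]
      congr 3
      ring

open Classical in
theorem pos_main (C θ ε : ℝ) (A : ℕ) (hC : 1 ≤ C) (hθ : 0 < θ) (hθ2 : θ ≤ 1 / 4) (hε : 0 < ε)
    (hε1 : ε ≤ 1) (hεθ : ε ≤ 4 * θ) :
    ∃ c : ℝ, 0 < c ∧ ∃ K N₀ : ℕ, ∀ N : ℕ, N₀ ≤ N → ∀ M : ℕ, M ≤ N ^ A →
      ∀ H : ℕ, Real.log N ^ K ≤ H → H ≤ N →
      ∀ S : Finset ℕ, (∀ s ∈ S, 2 * s ≤ H) → (S.card : ℝ) ≤ C * Real.log N →
      (((Ioc 0 N).filter (fun n =>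
        (((Ioc (M + n) (M + n + H / 2)).filter (fun m => Gd S N θ m)).card : ℝ) < c * H)).card : ℝ) ≤
        N * (H : ℝ) ^ ε / H := by
  obtain ⟨c₀, hc₀, K₂, hK₂, δ, hδ, G, hG, X₀, hcls⟩ := one_class (4 * C / θ) ((A + 2 : ℕ) / θ) (by
    rw [le_div_iff₀ hθ]
    linarith)
  obtain ⟨κ, hκ⟩ : ∃ κ : ℝ, κ = ε / 16 := ⟨_, rfl⟩
  have hκ0 : 0 < κ := by rw [hκ]; positivity
  obtain ⟨Z, hZ⟩ := eventually_atTop.mp (ev_delta2 ((2 * (K₂ : ℝ) + 1) ^ 2) (2 / κ) δ hδ)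
  obtain ⟨K, hK⟩ : ∃ K : ℕ, 4 * (K₂ : ℝ) / ε + 1 ≤ K := exists_nat_ge _
  -- large H
  have a1 : ∀ᶠ H : ℕ in atTop, max (max Z K₂) 3 ≤ ⌊κ * Real.log H⌋₊ := by
    have h1 : Tendsto (fun H : ℕ => ⌊κ * Real.log H⌋₊) atTop atTop :=
      tendsto_nat_floor_atTop.comp (tendsto_log_nat.const_mul_atTop hκ0)
    exact h1.eventually_ge_atTop _
  have a2 : ∀ᶠ H : ℕ in atTop, 16 * G ≤ (H : ℝ) ^ (ε / 2) :=
    ((tendsto_rpow_atTop (by positivity)).comp tendsto_natCast_atTop_atTop).eventually_ge_atTop _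
  have a3 : ∀ᶠ H : ℕ in atTop, 8 ≤ (H : ℝ) ^ (1 / 2 : ℝ) :=
    ((tendsto_rpow_atTop (by norm_num)).comp tendsto_natCast_atTop_atTop).eventually_ge_atTop _
  obtain ⟨H₀, hH₀⟩ := eventually_atTop.mp (a1.and (a2.and a3))
  -- large N
  have b1 : ∀ᶠ N : ℕ in atTop, (H₀ : ℝ) + 1 + Real.log 2 * (2 / θ) ≤ Real.log N :=
    tendsto_log_nat.eventually_ge_atTop _
  have b2 : ∀ᶠ N : ℕ in atTop, (X₀ : ℝ) + 1 ≤ (N : ℝ) ^ θ :=
    ((tendsto_rpow_atTop hθ).comp tendsto_natCast_atTop_atTop).eventually_ge_atTop _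
  have b3 : ∀ᶠ N : ℕ in atTop, 4 * (2 : ℝ) ^ (((A + 2 : ℕ) : ℝ) / θ) ≤ (N : ℝ) :=
    tendsto_natCast_atTop_atTop.eventually_ge_atTop _
  obtain ⟨N₀, hN₀⟩ := eventually_atTop.mp (b1.and (b2.and (b3.and (eventually_ge_atTop 16))))
  refine ⟨c₀ / 16, by positivity, K, N₀, fun N hN M hM H hH1 hH2 S hS1 hS2 => ?_⟩
  obtain ⟨g1, g2, g3, g4⟩ := hN₀ N hN
  obtain ⟨ℓ, hℓ⟩ : ∃ ℓ : ℝ, ℓ = Real.log N := ⟨_, rfl⟩
  rw [← hℓ] at g1 hH1 hS2
  have hl2 : (0 : ℝ) < Real.log 2 := Real.log_pos (by norm_num)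
  have hlt : 0 ≤ Real.log 2 * (2 / θ) := by positivity
  have hH₀R : (0 : ℝ) ≤ H₀ := Nat.cast_nonneg _
  have hℓ1 : 1 ≤ ℓ := by linarith
  have hℓ0 : 0 < ℓ := by linarith
  have hK1 : 1 ≤ K := by
    have : (0 : ℝ) ≤ 4 * (K₂ : ℝ) / ε := by positivity
    have : (1 : ℝ) ≤ K := by linarith
    exact_mod_cast this
  have hℓH : ℓ ≤ H := by
    refine le_trans ?_ hH1
    calc ℓ = ℓ ^ 1 := (pow_one _).symm
      _ ≤ ℓ ^ K := pow_le_pow_right₀ hℓ1 hK1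
  have hHH₀ : H₀ ≤ H := by
    have : (H₀ : ℝ) ≤ H := by linarith
    exact_mod_cast this
  obtain ⟨k1, k2, k3⟩ := hH₀ H hHH₀
  have hHR1 : (1 : ℝ) ≤ H := by linarith
  have hHR0 : (0 : ℝ) < H := by linarith
  have hHN : (H : ℝ) ≤ N := by exact_mod_cast hH2
  have hlogH0 : 0 ≤ Real.log (H : ℝ) := Real.log_nonneg hHR1
  obtain ⟨X, hX⟩ : ∃ X : ℕ, X = ⌊(N : ℝ) ^ θ⌋₊ := ⟨_, rfl⟩
  obtain ⟨x1, x2, x3, x4, x5, x6⟩ := x_facts (A := A) hθ hθ2 hX (by rw [← hℓ]; linarith) g2 g3 g4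
  rw [← hℓ] at x4
  have hNR : (16 : ℝ) ≤ N := by exact_mod_cast g4
  have hN1R : (1 : ℝ) ≤ N := by linarith
  -- z0 and W
  obtain ⟨z0, hz0⟩ : ∃ z0 : ℕ, z0 = ⌊κ * Real.log H⌋₊ := ⟨_, rfl⟩
  rw [← hz0] at k1
  have hzZ : Z ≤ z0 := ((le_max_left _ _).trans (le_max_left _ _)).trans k1
  have hzK : K₂ ≤ z0 := ((le_max_right _ _).trans (le_max_left _ _)).trans k1
  have hz3 : 3 ≤ z0 := (le_max_right _ _).trans k1
  have hz0le : (z0 : ℝ) ≤ κ * Real.log H := by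
    rw [hz0]
    exact Nat.floor_le (by positivity)
  have hz0gt : κ * Real.log H < z0 + 1 := by
    rw [hz0]
    exact Nat.lt_floor_add_one _
  obtain ⟨W, hW⟩ : ∃ W : ℕ, W = primorial z0 := ⟨_, rfl⟩
  have hW0 : 0 < W := by rw [hW]; exact primorial_pos z0
  have hWR : (0 : ℝ) < W := by exact_mod_cast hW0
  have hWle : (W : ℝ) ≤ (H : ℝ) ^ (ε / 8) := by
    rw [hW]
    refine (prim_le hHR1 hz0le).trans (le_of_eq ?_)
    rw [hκ]
    congr 1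
    ring
  have hW8 : W * 8 ≤ H := by
    have h1 : (W : ℝ) ≤ (H : ℝ) ^ (1 / 2 : ℝ) := hWle.trans
      (Real.rpow_le_rpow_of_exponent_le hHR1 (by linarith))
    have h2 : (W : ℝ) * 8 ≤ H := by
      calc (W : ℝ) * 8 ≤ (H : ℝ) ^ (1 / 2 : ℝ) * (H : ℝ) ^ (1 / 2 : ℝ) :=
            mul_le_mul h1 k3 (by norm_num) (by positivity)
        _ = H := by
          rw [← Real.rpow_add hHR0]
          norm_num
    exact_mod_cast h2
  -- X
  have hX0 : (0 : ℝ) < X := by exact_mod_cast x3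
  have hX2 : X ^ 2 ≤ N := by
    have h1 : (X : ℝ) ^ 2 ≤ N := by
      refine x5.trans ?_
      calc (N : ℝ) ^ (1 / 2 : ℝ) ≤ (N : ℝ) ^ (1 : ℝ) :=
            Real.rpow_le_rpow_of_exponent_le hN1R (by norm_num)
        _ = N := Real.rpow_one _
    exact_mod_cast h1
  have hX1R : (1 : ℝ) ≤ X := by exact_mod_cast x3
  have hlogX0 : 0 ≤ Real.log (X : ℝ) := Real.log_nonneg hX1R
  have hlogXle : Real.log X ≤ ℓ := by
    rw [hℓ]
    refine Real.log_le_log hX0 (x1.trans ?_)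
    calc (N : ℝ) ^ θ ≤ (N : ℝ) ^ (1 : ℝ) :=
          Real.rpow_le_rpow_of_exponent_le hN1R (by linarith)
      _ = N := Real.rpow_one _
  have hz0X : (z0 : ℝ) ≤ Real.log X := by
    refine le_trans ?_ x4
    have h1 : Real.log H ≤ ℓ := by
      rw [hℓ]
      exact Real.log_le_log hHR0 hHN
    calc (z0 : ℝ) ≤ κ * Real.log H := hz0le
      _ ≤ κ * ℓ := mul_le_mul_of_nonneg_left h1 hκ0.le
      _ ≤ θ / 2 * ℓ := by
        refine mul_le_mul_of_nonneg_right ?_ hℓ0.le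
        rw [hκ]
        linarith
  have hz0leX : z0 ≤ X := by
    have h1 := Real.log_le_sub_one_of_pos hX0
    have : (z0 : ℝ) ≤ X := by linarith
    exact_mod_cast this
  -- J
  obtain ⟨L, hL⟩ : ∃ L : ℕ, L = H / 2 := ⟨_, rfl⟩
  have hLH : L * 2 ≤ H := by omega
  have hSL : ∀ s ∈ S, s ≤ L := by
    intro s hs
    have := hS1 s hs
    omega
  obtain ⟨J, hJ⟩ : ∃ J : ℕ, J = H / (2 * W) - 1 := ⟨_, rfl⟩
  obtain ⟨j1, j2, j3⟩ := j_facts hW0 hJ hW8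
  have hJR : (0 : ℝ) < J := by exact_mod_cast j3
  -- collisions
  have hcoll := coll (δ := δ) (k := (2 * (K₂ : ℝ) + 1) ^ 2) hκ0 hz3 (by positivity) hz0gt (hZ z0 hzZ)
  have hdl : 2 / (z0 : ℝ) + (2 * (K₂ : ℝ) + 1) ^ 2 * (Real.log L / (z0 * Real.log z0)) ≤ δ := by
    refine le_trans ?_ hcoll
    have h2 : Real.log L ≤ Real.log H := by
      rcases Nat.eq_zero_or_pos L with h | h
      · rw [h]
        simpa using hlogH0
      · refine Real.log_le_log (by exact_mod_cast h) ?_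
        have : L ≤ H := by omega
        exact_mod_cast this
    have h3 : Real.log L / (z0 * Real.log z0) ≤ Real.log H / (z0 * Real.log z0) := by
      refine div_le_div_of_nonneg_right h2 ?_
      exact mul_nonneg (Nat.cast_nonneg _) (Real.log_natCast_nonneg _)
    have h4 := mul_le_mul_of_nonneg_left h3 (by positivity : 0 ≤ (2 * (K₂ : ℝ) + 1) ^ 2)
    linarith
  have hfb := final_bound (N := N) (K₂ := K₂) (K := K) hε (by linarith) hℓ1 hlogXle hlogX0 hHR0 hJR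
    hH1 hK k2 hWle j2
  rw [hW] at j1 j2
  refine (assemble (S := S) (L := L) (z0 := z0) (X := X) (H := H) (J := J) (N := N) (M := M)
    (θ := θ) (c₀ := c₀) (T := G * N * W / J * Real.log X ^ K₂) hc₀ (by positivity) hz0leX x1 hSL j1
    j2 (fun b hb hBb => ?_)).trans hfb
  rw [hW]
  refine hcls X x2 N H L z0 M b J S hzK hz3 hz0X hz0leX hX2 hH2 hb j3 j1 hLH ?_ hdl (x6 M hM)
  calc ((Bset S L z0 (M + b)).card : ℝ) * Real.log z0 ≤ 2 * S.card := hBb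
    _ ≤ 2 * (C * ℓ) := mul_le_mul_of_nonneg_left hS2 (by norm_num)
    _ = 4 * C / θ * (θ / 2 * ℓ) := by field_simp; ring
    _ ≤ 4 * C / θ * Real.log X := mul_le_mul_of_nonneg_left x4 (by positivity)

end Pool.Agent.J4H30.AW
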