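import Pool.Agent.J4H30.AW.WinA

/-!
Project AW, part 7a: averages over the residue classes.
-/

set_option autoImplicit false

open Finset Filter

namespace Pool.Agent.J4H30.AW

open Pool.Agent.H410R2.AC Pool.Agent.H410R2.EN Pool.Agent.H143R2.ACF Pool.Agent.H647R2.ACNT

open Classical in
/-- for half of the residue classes the number of positions which are left is small -/
lemma avg_good (S : Finset ℕ) (L z0 M : ℕ) :
    primorial z0 ≤ 2 * ((range (primorial z0)).filter (fun b =>
      ((Bset S L z0 (M + b)).card : ℝ) * Real.log z0 ≤ 2 * S.card)).card := by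
  set Q := primorial z0 with hQ
  have hQ0 : 0 < Q := primorial_pos z0
  set A : Finset ℕ := S.image (fun s => L - s) with hA
  have hAS : A.card ≤ S.card := Finset.card_image_le
  have hshift : ∀ a b : ℕ, IsCoprime (((M + b : ℕ) : ℤ) - (a : ℤ)) (Q : ℤ) ↔
      IsCoprime ((b : ℤ) - ((a + M * (Q - 1) : ℕ) : ℤ)) (Q : ℤ) := by
    intro a b
    have h1 : ((M + b : ℕ) : ℤ) - (a : ℤ) =
        ((b : ℤ) - ((a + M * (Q - 1) : ℕ) : ℤ)) + M * (Q : ℤ) := by
      push_cast [Nat.cast_sub hQ0]
      ring
    rw [h1]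
    exact IsCoprime.add_mul_right_left_iff
  have h1 : ∑ b ∈ range Q, (Bset S L z0 (M + b)).card = A.card * Q.totient := by
    unfold Bset
    simp_rw [Finset.card_filter]
    rw [Finset.sum_comm]
    simp_rw [← Finset.card_filter]
    have h2 : ∀ a ∈ A, ((range Q).filter (fun b : ℕ =>
        IsCoprime (((M + b : ℕ) : ℤ) - (a : ℤ)) (Q : ℤ))).card = Q.totient := by
      intro a _
      simp_rw [hshift]
      exact count_coprime Q _ hQ0
    rw [Finset.sum_congr rfl h2, Finset.sum_const, smul_eq_mul]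
  have h2 : Real.log z0 ≤ Pi1 (SH z0) := by
    refine (log_le_sum z0).trans ?_
    apply sum_factored
    · intro p hp
      exact (Finset.mem_filter.1 hp).2
    · intro n hn
      rw [Finset.mem_Icc] at hn
      rw [Nat.mem_factoredNumbers_iff_primeFactors_subset]
      refine ⟨by omega, ?_⟩
      intro p hp
      have h3 := Nat.prime_of_mem_primeFactors hp
      have h4 := Nat.le_of_mem_primeFactors hp
      unfold SH
      rw [Finset.mem_filter, Finset.mem_range]
      exact ⟨by omega, h3⟩
  have h3 : (Q.totient : ℝ) * Real.log z0 ≤ Q := by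
    rw [hQ, ← totient_primorial z0]
    exact mul_le_mul_of_nonneg_left h2 (Nat.cast_nonneg _)
  have hlog0 : 0 ≤ Real.log (z0 : ℝ) := Real.log_natCast_nonneg _
  set G : Finset ℕ := (range Q).filter (fun b =>
      ((Bset S L z0 (M + b)).card : ℝ) * Real.log z0 ≤ 2 * S.card) with hG
  set D : Finset ℕ := (range Q).filter (fun b =>
      ¬ ((Bset S L z0 (M + b)).card : ℝ) * Real.log z0 ≤ 2 * S.card) with hD
  have hGD : G.card + D.card = Q := by
    rw [hG, hD, Finset.card_filter_add_card_filter_not, Finset.card_range]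
  have h4 : (D.card : ℝ) * (2 * S.card) ≤ S.card * Q := by
    calc (D.card : ℝ) * (2 * S.card) = ∑ b ∈ D, (2 * (S.card : ℝ)) := by
          rw [Finset.sum_const, nsmul_eq_mul]
      _ ≤ ∑ b ∈ D, ((Bset S L z0 (M + b)).card : ℝ) * Real.log z0 := by
          refine Finset.sum_le_sum fun b hb => ?_
          have := (mem_filter.mp hb).2
          push Not at this
          exact this.le
      _ ≤ ∑ b ∈ range Q, ((Bset S L z0 (M + b)).card : ℝ) * Real.log z0 := by
          refine Finset.sum_le_sum_of_subset_of_nonneg (Finset.filter_subset _ _)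
            (fun b _ _ => by positivity)
      _ = (A.card : ℝ) * (Q.totient * Real.log z0) := by
          rw [← Finset.sum_mul]
          have : (∑ b ∈ range Q, ((Bset S L z0 (M + b)).card : ℝ)) = (A.card : ℝ) * Q.totient := by
            exact_mod_cast h1
          rw [this]
          ring
      _ ≤ (A.card : ℝ) * Q := by gcongr
      _ ≤ S.card * Q := by
          have : (A.card : ℝ) ≤ S.card := by exact_mod_cast hAS
          gcongr
  rcases Nat.eq_zero_or_pos S.card with h | h
  · have hD0 : D = ∅ := by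
      rw [hD, Finset.filter_eq_empty_iff]
      intro b _
      push Not
      have hS : S = ∅ := Finset.card_eq_zero.mp h
      unfold Bset
      simp [hS]
    rw [hD0, Finset.card_empty] at hGD
    omega
  · have hS : (0 : ℝ) < S.card := by exact_mod_cast h
    have h5 : (D.card : ℝ) * 2 ≤ Q := by
      have h6 : (S.card : ℝ) * (D.card * 2) ≤ S.card * Q := by linarith
      exact le_of_mul_le_mul_left h6 hS
    have h6 : D.card * 2 ≤ Q := by exact_mod_cast h5
    omega

/-- the good integers -/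
def Gd (S : Finset ℕ) (N : ℕ) (θ : ℝ) (m : ℕ) : Prop :=
  ∀ s ∈ S, ∃ p : ℕ, p.Prime ∧ (p : ℝ) ≤ (N : ℝ) ^ θ ∧ p ∣ m + s

open Classical in
/-- the members of the different residue classes are different -/
lemma count_lower {S : Finset ℕ} {L z0 X H J N M n : ℕ} {θ : ℝ} (F : Finset ℕ)
    (hF : ∀ b ∈ F, b < primorial z0) (hzX : z0 ≤ X) (hXN : (X : ℝ) ≤ (N : ℝ) ^ θ)
    (hSL : ∀ s ∈ S, s ≤ L) (hJH : primorial z0 * (J + 1) * 2 ≤ H) :
    ∑ b ∈ F, ((range J).filter (fun j =>
      Cov S L z0 X (M + b) (eb L (primorial z0) b n + j))).card ≤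
      ((Ioc (M + n) (M + n + H / 2)).filter (fun m => Gd S N θ m)).card := by
  set W := primorial z0 with hW
  have hW0 : 0 < W := primorial_pos z0
  rw [← Finset.card_sigma]
  have h30 : W * (J + 1) * 2 = W * J * 2 + W * 2 := by ring
  refine Finset.card_le_card_of_injOn (fun x => M + x.1 + W * (eb L W x.1 n + x.2) - L) ?_ ?_
  · rintro ⟨b, j⟩ hx
    rw [mem_coe, mem_sigma, mem_filter, mem_range] at hx
    obtain ⟨hb, hj, hc⟩ := hx
    simp only at hb hj hc
    obtain ⟨h1, h2⟩ := eb_bounds (L := L) (n := n) (hF b hb)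
    have hWm : W * (eb L W b n + j) = W * eb L W b n + W * j := by ring
    have hWj : W * j + W ≤ W * J := by
      calc W * j + W = W * (j + 1) := by ring
        _ ≤ W * J := Nat.mul_le_mul_left _ hj
    simp only [coe_filter, mem_Ioc, Set.mem_ofPred_eq]
    refine ⟨⟨by omega, by omega⟩, fun s hs => ?_⟩
    obtain ⟨p, hp, hpX, hpd⟩ := cov_good hzX hSL (by rw [← hW]; omega) hc s hs
    refine ⟨p, hp, ?_, hpd⟩
    have : (p : ℝ) ≤ X := by exact_mod_cast hpX
    linarith
  · rintro ⟨b, j⟩ hx ⟨b', j'⟩ hx' h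
    rw [mem_coe, mem_sigma, mem_filter, mem_range] at hx hx'
    simp only at hx hx' h
    obtain ⟨h1, h2⟩ := eb_bounds (L := L) (n := n) (hF b hx.1)
    obtain ⟨h1', h2'⟩ := eb_bounds (L := L) (n := n) (hF b' hx'.1)
    have hWm : W * (eb L W b n + j) = W * eb L W b n + W * j := by ring
    have hWm' : W * (eb L W b' n + j') = W * eb L W b' n + W * j' := by ring
    have h3 : b + W * (eb L W b n + j) = b' + W * (eb L W b' n + j') := by omega
    have hb : b = b' := by
      have h4 : (b + W * (eb L W b n + j)) % W = (b' + W * (eb L W b' n + j')) % W := by rw [h3]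
      rw [Nat.add_mul_mod_self_left, Nat.add_mul_mod_self_left, Nat.mod_eq_of_lt (hF b hx.1),
        Nat.mod_eq_of_lt (hF b' hx'.1)] at h4
      exact h4
    subst hb
    have h5 : eb L W b n + j = eb L W b n + j' := by
      have h6 : W * (eb L W b n + j) = W * (eb L W b n + j') := by omega
      exact Nat.eq_of_mul_eq_mul_left hW0 h6
    have h7 : j = j' := by omega
    rw [h7]

/-- double counting -/
lemma double_count {R F : Finset ℕ} (P : ℕ → ℕ → Prop) [∀ n b, Decidable (P n b)] (T W : ℝ)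
    (hW : 0 < W) (hFW : (F.card : ℝ) ≤ W) (h1 : ∀ n ∈ R, W / 4 ≤ ((F.filter (fun b => P n b)).card : ℝ))
    (h2 : ∀ b ∈ F, ((R.filter (fun n => P n b)).card : ℝ) ≤ T) (hT : 0 ≤ T) :
    (R.card : ℝ) ≤ 4 * T := by
  have h3 : ∑ n ∈ R, ((F.filter (fun b => P n b)).card : ℝ) =
      ∑ b ∈ F, ((R.filter (fun n => P n b)).card : ℝ) := by
    simp_rw [Finset.card_filter]
    push_cast
    rw [Finset.sum_comm]
  have h4 : (R.card : ℝ) * (W / 4) ≤ F.card * T := by
    calc (R.card : ℝ) * (W / 4) = ∑ n ∈ R, W / 4 := by rw [Finset.sum_const, nsmul_eq_mul]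
      _ ≤ ∑ n ∈ R, ((F.filter (fun b => P n b)).card : ℝ) := Finset.sum_le_sum h1
      _ = _ := h3
      _ ≤ ∑ b ∈ F, T := Finset.sum_le_sum h2
      _ = F.card * T := by rw [Finset.sum_const, nsmul_eq_mul]
  have h5 : (R.card : ℝ) * (W / 4) ≤ W * T := h4.trans (by gcongr)
  have h6 : (W / 4) * (R.card : ℝ) ≤ (W / 4) * (4 * T) := by linarith
  exact le_of_mul_le_mul_left h6 (by positivity)

lemma ev_delta2 (k A δ : ℝ) (hδ : 0 < δ) :
    ∀ᶠ z : ℕ in atTop, 2 / (z : ℝ) + k * (A / Real.log z) ≤ δ := by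
  have h1 : Tendsto (fun z : ℕ => 2 / (z : ℝ)) atTop (nhds 0) :=
    tendsto_natCast_atTop_atTop.const_div_atTop 2
  have h2 : Tendsto (fun z : ℕ => A / Real.log z) atTop (nhds 0) :=
    tendsto_log_nat.const_div_atTop _
  have h3 := h1.add (h2.const_mul k)
  simp only [mul_zero, add_zero] at h3
  exact h3.eventually_le_const hδ

end Pool.Agent.J4H30.AW
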