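import Pool.Agent.J4H30.AW.Aux1

/-!
Project AW, part 6a: one residue class modulo the primorial, definitions.
-/

set_option autoImplicit false

open Finset Filter

namespace Pool.Agent.J4H30.AW

open Pool.Agent.H410R2.AC Pool.Agent.H410R2.EN Pool.Agent.H143R2.ACF

/-- the positions not covered by the primes up to `z0` -/
noncomputable def Bset (S : Finset ℕ) (L z0 b : ℕ) : Finset ℕ := by
  classical
  exact (S.image (fun s => L - s)).filter
    (fun a : ℕ => IsCoprime ((b : ℤ) - (a : ℤ)) (primorial z0 : ℤ))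

/-- all the positions are covered -/
def Cov (S : Finset ℕ) (L z0 X b m : ℕ) : Prop :=
  ∀ a ∈ Bset S L z0 b, ∃ p ∈ PP z0 X, m % p = rho (primorial z0) b p a

/-- the first member of the window, in the coordinate of the residue class -/
def eb (L W b n : ℕ) : ℕ := (n + (L + (W - b))) / W + 1

lemma eb_bounds {L W b n : ℕ} (hb : b < W) : n + L < b + W * eb L W b n ∧
    b + W * eb L W b n ≤ n + L + 2 * W := by
  have hW : 0 < W := by omega
  have h1 := Nat.mul_div_le (n + (L + (W - b))) W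
  have h2 := Nat.lt_mul_div_succ (n + (L + (W - b))) hW
  rw [Nat.mul_add, mul_one] at h2
  unfold eb
  rw [Nat.mul_add, mul_one]
  omega

lemma Bset_le {S : Finset ℕ} {L z0 b a : ℕ} (ha : a ∈ Bset S L z0 b) : a ≤ L := by
  classical
  unfold Bset at ha
  have h1 := (mem_filter.mp ha).1
  rw [mem_image] at h1
  obtain ⟨s, -, rfl⟩ := h1
  exact Nat.sub_le _ _

lemma not_dvd_primorial {z0 X p : ℕ} (hp : p ∈ PP z0 X) : ¬ p ∣ primorial z0 := by
  intro h
  have := prime_dvd_primorial (PP_prime hp) h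
  have := PP_gt hp
  omega

lemma cov_good {S : Finset ℕ} {L z0 X b m : ℕ} (hz : z0 ≤ X) (hSL : ∀ s ∈ S, s ≤ L)
    (hm : L ≤ b + primorial z0 * m) (hcov : Cov S L z0 X b m) :
    ∀ s ∈ S, ∃ p : ℕ, p.Prime ∧ p ≤ X ∧ p ∣ b + primorial z0 * m - L + s := by
  classical
  intro s hs
  have hsL := hSL s hs
  set W := primorial z0 with hW
  have hcast : ((b + W * m - L + s : ℕ) : ℤ) = (b : ℤ) + W * m - ((L - s : ℕ) : ℤ) := by
    omega
  by_cases hcop : IsCoprime ((b : ℤ) - ((L - s : ℕ) : ℤ)) (W : ℤ)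
  · have haB : L - s ∈ Bset S L z0 b := by
      unfold Bset
      exact mem_filter.mpr ⟨mem_image_of_mem _ hs, hcop⟩
    obtain ⟨p, hp, hmp⟩ := hcov _ haB
    rw [rho_iff (PP_prime hp) (not_dvd_primorial hp)] at hmp
    refine ⟨p, PP_prime hp, PP_le hp, ?_⟩
    rw [← Int.natCast_dvd_natCast, hcast]
    exact hmp
  · have h1 : Int.gcd ((b : ℤ) - ((L - s : ℕ) : ℤ)) (W : ℤ) ≠ 1 := by
      intro h
      exact hcop (Int.isCoprime_iff_gcd_eq_one.mpr h)
    obtain ⟨p, hp, hpd⟩ := Nat.exists_prime_and_dvd h1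
    have h2 : (p : ℤ) ∣ (b : ℤ) - ((L - s : ℕ) : ℤ) :=
      (Int.natCast_dvd_natCast.mpr hpd).trans (Int.gcd_dvd_left _ _)
    have h3 : (p : ℤ) ∣ (W : ℤ) := (Int.natCast_dvd_natCast.mpr hpd).trans (Int.gcd_dvd_right _ _)
    have h4 : p ∣ W := Int.natCast_dvd_natCast.mp h3
    have h5 : p ≤ z0 := prime_dvd_primorial hp h4
    refine ⟨p, hp, h5.trans hz, ?_⟩
    rw [← Int.natCast_dvd_natCast, hcast]
    have h7 : (b : ℤ) + W * m - ((L - s : ℕ) : ℤ) =
        ((b : ℤ) - ((L - s : ℕ) : ℤ)) + W * m := by ring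
    rw [h7]
    exact dvd_add h2 (h3.mul_right _)

end Pool.Agent.J4H30.AW
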