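import Pool.Agent.J4H30.AW.CorePos
import Pool.Agent.J4H30.AW.WinA

/-!
Project AW, part 6: one residue class modulo the primorial.  For all but few `n` a positive proportion of
the `J` members of the residue class `b` following `n` are covered.
-/

set_option autoImplicit false

open Finset Filter

namespace Pool.Agent.J4H30.AW

open Pool.Agent.H410R2.AC Pool.Agent.H410R2.EN Pool.Agent.H143R2.ACF

open Classical in
/-- one residue class -/
theorem one_class (C D₀ : ℝ) (hC : 1 ≤ C) : ∃ c₀ : ℝ, 0 < c₀ ∧ ∃ K : ℕ, 1 ≤ K ∧ ∃ δ : ℝ, 0 < δ ∧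
    ∃ G : ℝ, 1 ≤ G ∧ ∃ X₀ : ℕ, ∀ X : ℕ, X₀ ≤ X → ∀ N H L z0 M b J : ℕ, ∀ S : Finset ℕ,
      K ≤ z0 → 3 ≤ z0 → (z0 : ℝ) ≤ Real.log X → z0 ≤ X → X ^ 2 ≤ N → H ≤ N →
      b < primorial z0 → 0 < J → primorial z0 * (J + 1) * 2 ≤ H → L * 2 ≤ H →
      ((Bset S L z0 (M + b)).card : ℝ) * Real.log z0 ≤ C * Real.log X →
      2 / (z0 : ℝ) + (2 * (K : ℝ) + 1) ^ 2 * (Real.log L / (z0 * Real.log z0)) ≤ δ →
      (M : ℝ) + 3 * N ≤ (X : ℝ) ^ D₀ →
      (((Ioc 0 N).filter (fun n => (((range J).filter (fun j =>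
        Cov S L z0 X (M + b) (eb L (primorial z0) b n + j))).card : ℝ) < c₀ * J)).card : ℝ) ≤
        G * N * primorial z0 / J * Real.log X ^ K := by
  obtain ⟨c₀, hc₀, K₁, hK₁, δ, hδ, X₀, hcore⟩ := core_pos C D₀ hC
  obtain ⟨C1, hC1, hN1, -, -, hN4, hN5, hN6⟩ := Pool.Agent.H647R2.ACNT.nt
  refine ⟨c₀, hc₀, 4 * K₁ + K₁ ^ 2, by omega, δ, hδ, 30 * C1 ^ (2 * K₁ + K₁ ^ 2), ?_, max X₀ 3,
    fun X hX N H L z0 M b J S hK hz3 hzX hzX' hX2 hHN hb hJ hJH hLH hB hdl hDN => ?_⟩
  · have : 1 ≤ C1 ^ (2 * K₁ + K₁ ^ 2) := one_le_pow₀ hC1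
    linarith
  have hXX₀ : X₀ ≤ X := (le_max_left _ _).trans hX
  have hX3 : 3 ≤ X := (le_max_right _ _).trans hX
  set W : ℕ := primorial z0 with hW
  have hW0 : 0 < W := primorial_pos z0
  have hWR : (0 : ℝ) < W := by exact_mod_cast hW0
  have hJR : (0 : ℝ) < J := by exact_mod_cast hJ
  have hz3R : (3 : ℝ) ≤ z0 := by exact_mod_cast hz3
  have hX3R : (3 : ℝ) ≤ X := by exact_mod_cast hX3
  have hlogz : 1 ≤ Real.log z0 := by
    rw [Real.le_log_iff_exp_le (by linarith)]
    have := Real.exp_one_lt_d9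
    linarith
  have hlogX : 1 ≤ Real.log X := by
    rw [Real.le_log_iff_exp_le (by linarith)]
    have := Real.exp_one_lt_d9
    linarith
  have hN9 : 9 ≤ N := by nlinarith
  have hN0 : (0 : ℝ) < N := by
    have : 0 < N := by omega
    exact_mod_cast this
  have hPP : ∀ p ∈ PP z0 X, p.Prime := fun p hp => PP_prime hp
  have hQ : ∀ p ∈ PP z0 X, ¬ p ∣ W := fun p hp => not_dvd_primorial hp
  have hWj0 : W ≤ W * J := Nat.le_mul_of_pos_right _ hJ
  by_contra hcon
  push Not at hcon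
  set bad : Finset ℕ := (Ioc 0 N).filter (fun n => (((range J).filter (fun j =>
        Cov S L z0 X (M + b) (eb L W b n + j))).card : ℝ) < c₀ * J) with hbad
  set E : Finset ℕ := bad.image (eb L W b) with hE
  have hcard : (bad.card : ℝ) ≤ W * E.card := by
    have h1 := card_fibre bad W (L + (W - b)) hW0
    have h2 : E.card = (bad.image (fun n => (n + (L + (W - b))) / W)).card := by
      have h3 : E = (bad.image (fun n => (n + (L + (W - b))) / W)).image (fun x => x + 1) := by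
        rw [hE, Finset.image_image]
        rfl
      rw [h3, Finset.card_image_of_injective _ (add_left_injective 1)]
    rw [h2]
    exact_mod_cast h1
  have hEsub : E ⊆ Icc 1 (4 * N) := by
    intro e he
    rw [hE, mem_image] at he
    obtain ⟨n, hn, rfl⟩ := he
    rw [hbad, mem_filter, mem_Ioc] at hn
    rw [mem_Icc]
    obtain ⟨h1, h2⟩ := eb_bounds (L := L) (n := n) hb
    constructor
    · exact Nat.succ_pos _
    · have h3 : eb L W b n ≤ b + W * eb L W b n := by
        have := Nat.le_mul_of_pos_left (eb L W b n) hW0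
        omega
      have h4 : W * (J + 1) * 2 = W * J * 2 + W * 2 := by ring
      omega
  have hEcard : 30 * C1 ^ (2 * K₁ + K₁ ^ 2) * N / J * Real.log X ^ (4 * K₁ + K₁ ^ 2) < E.card := by
    have h1 : W * (30 * C1 ^ (2 * K₁ + K₁ ^ 2) * N / J * Real.log X ^ (4 * K₁ + K₁ ^ 2)) <
        W * E.card := by
      refine lt_of_lt_of_le (lt_of_eq_of_lt ?_ hcon) hcard
      ring
    exact lt_of_mul_lt_mul_left h1 hWR.le
  have hE0 : (0 : ℝ) < E.card := lt_of_le_of_lt (by positivity) hEcard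
  -- the error terms
  have hPi0 : 0 ≤ Pi1 (PP z0 X) := by
    unfold Pi1
    refine Finset.prod_nonneg fun p hp => ?_
    have h2 := prime_two_le (hPP p hp)
    have : (0 : ℝ) < (p : ℝ) - 1 := by linarith
    positivity
  have hPi : Pi1 (PP z0 X) ≤ C1 * Real.log X := by
    refine (hN1 z0 X (by omega) hzX').trans ?_
    have h1 : Real.log X / Real.log z0 ≤ Real.log X := div_le_self (by linarith) hlogz
    gcongr
  have hX2R : (X : ℝ) ^ 2 ≤ N := by exact_mod_cast hX2
  have hET : ET K₁ (PP z0 X) X (errE E J) ≤ E.card / Real.log X ^ K₁ := by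
    refine (ET_wE E (PP z0 X) (4 * N) J X K₁ hEsub hJ hPP).trans ?_
    apply sqrt_bound _ _ _ _ _ hPi0 (by positivity) (by positivity)
    have h1 : 6 * (((4 * N : ℕ) : ℝ) + (X : ℝ) ^ 2) * E.card / J ≤ 30 * N / J * E.card := by
      rw [div_le_iff₀ hJR]
      calc 6 * (((4 * N : ℕ) : ℝ) + (X : ℝ) ^ 2) * E.card ≤
            6 * (4 * N + N) * E.card := by
              push_cast
              gcongr
        _ = 30 * N / J * E.card * J := by field_simp; ring
    have h2 : Pi1 (PP z0 X) ^ (2 * K₁) * (Pi1 (PP z0 X) ^ (K₁ ^ 2) *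
        (6 * (((4 * N : ℕ) : ℝ) + (X : ℝ) ^ 2) * E.card / J)) ≤
        (C1 * Real.log X) ^ (2 * K₁) * ((C1 * Real.log X) ^ (K₁ ^ 2) * (30 * N / J * E.card)) := by
      gcongr
    refine h2.trans ?_
    rw [div_pow, le_div_iff₀ (by positivity)]
    have h4 : (C1 * Real.log X) ^ (2 * K₁) * ((C1 * Real.log X) ^ (K₁ ^ 2) *
        (30 * N / J * E.card)) * (Real.log X ^ K₁) ^ 2 =
        (30 * C1 ^ (2 * K₁ + K₁ ^ 2) * N / J * Real.log X ^ (4 * K₁ + K₁ ^ 2)) * E.card := by
      ring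
    rw [h4, pow_two (E.card : ℝ)]
    exact mul_le_mul_of_nonneg_right hEcard.le hE0.le
  -- collisions
  have hB' : ∀ a ∈ Bset S L z0 (M + b), a ≤ L := fun a ha => Bset_le ha
  have hdl' : ∀ U ⊆ Bset S L z0 (M + b), U.card ≤ K₁ →
      dl (fun p => p) (rho W (M + b)) (PP z0 X) U ≤ δ := by
    intro U hU hUc
    refine (dl_le (L := L) (k := K₁) U (fun a ha => hB' a (hU ha)) (by omega) (by omega) hQ
      (hN4 z0 X (by omega)) (fun d h1 h2 => hN5 z0 X d L (by omega) h1 h2)).trans ?_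
    refine le_trans ?_ hdl
    have h1 : 0 ≤ Real.log L / (z0 * Real.log z0) :=
      div_nonneg (Real.log_natCast_nonneg _) (by positivity)
    have h2 : (K₁ : ℝ) ≤ ((4 * K₁ + K₁ ^ 2 : ℕ) : ℝ) := by
      exact_mod_cast (by omega : K₁ ≤ 4 * K₁ + K₁ ^ 2)
    gcongr
  -- sizes
  have hmem : ∀ m < 4 * N + J, wE E J m ≠ 0 → ∀ a ∈ Bset S L z0 (M + b),
      ∏ p ∈ (PP z0 X).filter (fun p => m % p = rho W (M + b) p a), (p : ℝ) ≤ (X : ℝ) ^ D₀ := by
    intro m _ hwm a ha
    refine le_trans ?_ hDN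
    obtain ⟨e, he, j, hj, hejm⟩ := wE_ne_zero E J m hwm
    rw [hE, mem_image] at he
    obtain ⟨n, hn, hne⟩ := he
    rw [hbad, mem_filter, mem_Ioc] at hn
    obtain ⟨h1, h2⟩ := eb_bounds (L := L) (n := n) hb
    rw [hne] at h1 h2
    have haL := hB' a ha
    have hWm : W * m = W * e + W * j := by rw [← hejm]; ring
    have hWj : W * j + W ≤ W * J := by
      calc W * j + W = W * (j + 1) := by ring
        _ ≤ W * J := Nat.mul_le_mul_left _ hj
    have h30 : W * (J + 1) * 2 = W * J * 2 + W * 2 := by ring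
    have h3 : ∏ p ∈ (PP z0 X).filter (fun p => m % p = rho W (M + b) p a), p ∣
        M + b + W * m - a := by
      apply Finset.prod_primes_dvd
      · intro p hp
        exact (hPP p (mem_filter.mp hp).1).prime
      · intro p hp
        rw [mem_filter] at hp
        have h4 := (rho_iff (hPP p hp.1) (hQ p hp.1)).mp hp.2
        rw [← Int.natCast_dvd_natCast]
        have h5 : ((M + b + W * m - a : ℕ) : ℤ) = ((M + b : ℕ) : ℤ) + W * m - a := by omega
        rw [h5]
        exact h4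
    have h4 := Nat.le_of_dvd (by omega) h3
    have h5 : M + b + W * m - a ≤ M + 3 * N := by omega
    have h6 : ((∏ p ∈ (PP z0 X).filter (fun p => m % p = rho W (M + b) p a), p : ℕ) : ℝ) ≤
        ((M + 3 * N : ℕ) : ℝ) := by exact_mod_cast h4.trans h5
    push_cast at h6
    exact h6
  have hmain := hcore X hXX₀ z0 (by omega) hzX (Bset S L z0 (M + b)) (rho W (M + b)) (wE E J)
    (4 * N + J)
    E.card (errE E J) hB (fun p hp a _ => rho_lt (hPP p hp)) (wE_nonneg E J) hE0
    (equid_wE E (PP z0 X) (4 * N) J (4 * N + J) X hEsub hJ le_rfl hPP) hdl' hET hmem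
  -- swap the sums
  have hswap : ∑ m ∈ (range (4 * N + J)).filter
      (fun m => ∀ a ∈ Bset S L z0 (M + b), ∃ p ∈ PP z0 X, m % p = rho W (M + b) p a), wE E J m ≤
      (1 / (J : ℝ)) * ∑ e ∈ E,
        (((range J).filter (fun j => Cov S L z0 X (M + b) (e + j))).card : ℝ) := by
    unfold wE
    rw [← Finset.mul_sum]
    refine mul_le_mul_of_nonneg_left ?_ (by positivity)
    rw [Finset.sum_comm]
    refine Finset.sum_le_sum fun e _ => ?_
    rw [Finset.sum_comm, Finset.card_filter]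
    push_cast
    refine Finset.sum_le_sum fun j _ => ?_
    rw [Finset.sum_ite_eq]
    split_ifs with h1 h2 h2
    · exact le_rfl
    · exfalso
      apply h2
      exact (mem_filter.mp h1).2
    · norm_num
    · exact le_rfl
  have hlt : ∑ e ∈ E, (((range J).filter (fun j => Cov S L z0 X (M + b) (e + j))).card : ℝ) <
      E.card * (c₀ * J) := by
    rw [← nsmul_eq_mul]
    refine lt_of_lt_of_le (Finset.sum_lt_sum_of_nonempty (g := fun _ => c₀ * (J : ℝ)) ?_ ?_) ?_
    · rw [← Finset.card_pos]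
      exact_mod_cast hE0
    · intro e he
      rw [hE, mem_image] at he
      obtain ⟨n, hn, rfl⟩ := he
      rw [hbad, mem_filter] at hn
      exact hn.2
    · rw [Finset.sum_const]
  have h9 := hmain.trans hswap
  have h10 : (1 / (J : ℝ)) * ∑ e ∈ E,
      (((range J).filter (fun j => Cov S L z0 X (M + b) (e + j))).card : ℝ) <
      (1 / (J : ℝ)) * (E.card * (c₀ * J)) := mul_lt_mul_of_pos_left hlt (by positivity)
  have h11 : (1 / (J : ℝ)) * (E.card * (c₀ * J)) = c₀ * E.card := by field_simp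
  linarith

end Pool.Agent.J4H30.AW
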